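import Mathlib

/-!
# Row Ari (MP_718a21_CR): the arithmetic for squarefree q (110 lines), Mathlib only

`ari`: for `A ∈ S` let `d A = gcd q (k A)`, `u A = q / d A`. `u A ≥ 2` because `k A < q`, `k A ≥ 1` (`q` does not divide `k A`).
`q / k A ≤ u A` because `d A ≤ k A`. For `A ≠ B`: `u A` and `u B` are coprime: a common prime `p` divides `q`, and
`p ∤ d A` (else `p * p ∣ q`, squarefree), so `p ∤ k A` (as `p ∣ q`), similarly `p ∤ k B`, but `p ∣ q ∣ k A * k B`. So
`∏ A ∈ S, u A ∣ q` (`Finset.prod_dvd_of_coprime` or `Finset.prod_dvd_of_isRelPrime`). Hence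
`q - 1 = ∑ (q / k A - 1) ≤ ∑ (u A - 1)`.
`ari_prod`: for numbers `u A ≥ 2` and at least two indices `∑ (u A - 1) < ∏ u A - 1`; for all finite sets `∑ (u A - 1) ≤ ∏ u A - 1`
(induction: `∏` over `insert`: `u (1 + s) - 1 ≥ (u - 1) + s` with equality only if `s = 0`). So `S` has at most one element; it is
not empty since the sum is `q - 1 ≠ 0`. `S = {A}`: `q / k A - 1 = q - 1` gives `k A = 1`.
`ari_min`: `q = p * r`, `p = q.minFac`, `r ≠ 1` as `q` is not prime, `p ∤ r` (squarefree), the smallest prime factor of `r`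
is a factor of `q`, so it is `≥ p` and `≠ p`: `r ≥ p + 1`.
-/

set_option autoImplicit false

namespace Pool.H67.CR

open Finset

theorem ari_prod_le {ι : Type*} (S : Finset ι) (u : ι → ℕ) (hu : ∀ A ∈ S, 2 ≤ u A) :
    ∑ A ∈ S, ((u A : ℚ) - 1) ≤ ∏ A ∈ S, (u A : ℚ) - 1 := by
  classical
  induction S using Finset.induction_on with
  | empty => simp
  | insert a s ha ih =>
    rw [Finset.sum_insert ha, Finset.prod_insert ha]
    have h1 := ih fun A hA => hu A (Finset.mem_insert_of_mem hA)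
    have h2 : (2 : ℚ) ≤ u a := by exact_mod_cast hu a (Finset.mem_insert_self _ _)
    have h3 : 0 ≤ ∑ A ∈ s, ((u A : ℚ) - 1) := by
      refine Finset.sum_nonneg fun A hA => ?_
      have : (2 : ℚ) ≤ u A := by exact_mod_cast hu A (Finset.mem_insert_of_mem hA)
      linarith
    have h4 : 0 ≤ ((u a : ℚ) - 1) * (∏ A ∈ s, (u A : ℚ) - 1) :=
      mul_nonneg (by linarith) (by linarith)
    nlinarith

theorem ari_prod {ι : Type*} (S : Finset ι) (u : ι → ℕ) (hu : ∀ A ∈ S, 2 ≤ u A) (hS : 2 ≤ S.card) :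
    ∑ A ∈ S, ((u A : ℚ) - 1) < ∏ A ∈ S, (u A : ℚ) - 1 := by
  classical
  obtain ⟨a, ha⟩ : S.Nonempty := Finset.card_pos.1 (by omega)
  have hS' : 1 ≤ (S.erase a).card := by
    rw [Finset.card_erase_of_mem ha]
    omega
  obtain ⟨b, hb⟩ : (S.erase a).Nonempty := Finset.card_pos.1 hS'
  rw [← Finset.insert_erase ha, Finset.sum_insert (Finset.notMem_erase a S),
    Finset.prod_insert (Finset.notMem_erase a S)]
  have hu' : ∀ A ∈ S.erase a, 2 ≤ u A := fun A hA => hu A (Finset.mem_of_mem_erase hA)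
  have h1 := ari_prod_le (S.erase a) u hu'
  have h2 : (2 : ℚ) ≤ u a := by exact_mod_cast hu a ha
  have h5 : ∀ A ∈ S.erase a, (0 : ℚ) ≤ (u A : ℚ) - 1 := by
    intro A hA
    have : (2 : ℚ) ≤ u A := by exact_mod_cast hu' A hA
    linarith
  have h3 : (u b : ℚ) - 1 ≤ ∑ A ∈ S.erase a, ((u A : ℚ) - 1) :=
    Finset.single_le_sum (f := fun A => (u A : ℚ) - 1) h5 hb
  have h6 : (2 : ℚ) ≤ u b := by exact_mod_cast hu' b hb
  have h4 : 0 < ((u a : ℚ) - 1) * (∏ A ∈ S.erase a, (u A : ℚ) - 1) :=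
    mul_pos (by linarith) (by linarith)
  nlinarith

theorem ari_dvd {ι : Type*} (q : ℕ) (S : Finset ι) (u : ι → ℕ) (h : ∀ A ∈ S, u A ∣ q)
    (hc : ∀ A ∈ S, ∀ B ∈ S, A ≠ B → Nat.Coprime (u A) (u B)) : ∏ A ∈ S, u A ∣ q := by
  classical
  induction S using Finset.induction_on with
  | empty => simp
  | insert a s ha ih =>
    rw [Finset.prod_insert ha]
    refine Nat.Coprime.mul_dvd_of_dvd_of_dvd ?_ (h a (Finset.mem_insert_self _ _))
      (ih (fun A hA => h A (Finset.mem_insert_of_mem hA)) fun A hA B hB =>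
        hc A (Finset.mem_insert_of_mem hA) B (Finset.mem_insert_of_mem hB))
    refine Nat.Coprime.prod_right fun B hB => ?_
    refine hc a (Finset.mem_insert_self _ _) B (Finset.mem_insert_of_mem hB) ?_
    rintro rfl
    exact ha hB

theorem ari {ι : Type*} (q : ℕ) (hq : 2 ≤ q) (hsf : Squarefree q) (S : Finset ι) (k : ι → ℕ)
    (hk : ∀ A ∈ S, 1 ≤ k A ∧ k A < q) (hd : ∀ A ∈ S, ∀ B ∈ S, A ≠ B → q ∣ k A * k B)
    (hsum : ∑ A ∈ S, ((q : ℚ) / k A - 1) = q - 1) : ∃ A, S = {A} ∧ k A = 1 := by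
  classical
  have hq0 : (0 : ℚ) < q := by
    have : 0 < q := by omega
    exact_mod_cast this
  have hdq : ∀ A, Nat.gcd q (k A) * (q / Nat.gcd q (k A)) = q := fun A =>
    Nat.mul_div_cancel' (Nat.gcd_dvd_left _ _)
  have hdpos : ∀ A, 0 < Nat.gcd q (k A) := fun A => Nat.gcd_pos_of_pos_left _ (by omega)
  have hu : ∀ A ∈ S, 2 ≤ q / Nat.gcd q (k A) := by
    intro A hA
    have h1 := hdq A
    have h2 : Nat.gcd q (k A) ≤ k A := Nat.gcd_le_right _ (hk A hA).1
    have h3 := (hk A hA).2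
    generalize q / Nat.gcd q (k A) = u at h1 ⊢
    by_contra h
    have h4 : u = 0 ∨ u = 1 := by omega
    rcases h4 with h4 | h4
    · rw [h4] at h1
      omega
    · rw [h4] at h1
      omega
  have hle : ∀ A ∈ S, (q : ℚ) / k A ≤ ((q / Nat.gcd q (k A) : ℕ) : ℚ) := by
    intro A hA
    have h2 : Nat.gcd q (k A) ≤ k A := Nat.gcd_le_right _ (hk A hA).1
    have hk0 : (0 : ℚ) < k A := by exact_mod_cast (hk A hA).1
    rw [div_le_iff₀ hk0]
    have h1 : (q : ℚ) = (Nat.gcd q (k A) : ℚ) * ((q / Nat.gcd q (k A) : ℕ) : ℚ) := by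
      exact_mod_cast (hdq A).symm
    have h3 : (Nat.gcd q (k A) : ℚ) ≤ k A := by exact_mod_cast h2
    have h4 : (0 : ℚ) ≤ ((q / Nat.gcd q (k A) : ℕ) : ℚ) := Nat.cast_nonneg _
    nlinarith
  have hcop : ∀ A ∈ S, ∀ B ∈ S, A ≠ B →
      Nat.Coprime (q / Nat.gcd q (k A)) (q / Nat.gcd q (k B)) := by
    intro A hA B hB hAB
    refine Nat.coprime_of_dvd fun p hp hpA hpB => ?_
    have hpq : p ∣ q := hpA.trans (Nat.div_dvd_of_dvd (Nat.gcd_dvd_left _ _))
    have key : ∀ C, p ∣ q / Nat.gcd q (k C) → ¬ p ∣ k C := by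
      intro C hC hpk
      have h1 : p ∣ Nat.gcd q (k C) := Nat.dvd_gcd hpq hpk
      have h2 : p * p ∣ q := by
        rw [← hdq C]
        exact mul_dvd_mul h1 hC
      exact hp.one_lt.ne' (Nat.isUnit_iff.1 (hsf p h2))
    have h3 := hpq.trans (hd A hA B hB hAB)
    rcases (Nat.Prime.dvd_mul hp).1 h3 with h4 | h4
    · exact key A hpA h4
    · exact key B hpB h4
  have hprod : ∏ A ∈ S, (q / Nat.gcd q (k A)) ∣ q :=
    ari_dvd q S _ (fun A _ => Nat.div_dvd_of_dvd (Nat.gcd_dvd_left _ _)) hcop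
  have hprod' : (∏ A ∈ S, ((q / Nat.gcd q (k A) : ℕ) : ℚ)) ≤ q := by
    have := Nat.le_of_dvd (by omega) hprod
    exact_mod_cast this
  have hsum' : (q : ℚ) - 1 ≤ ∑ A ∈ S, (((q / Nat.gcd q (k A) : ℕ) : ℚ) - 1) := by
    rw [← hsum]
    exact Finset.sum_le_sum fun A hA => sub_le_sub_right (hle A hA) 1
  have hcard : S.card < 2 := by
    by_contra h
    rw [not_lt] at h
    have := ari_prod S _ hu h
    linarith
  have hne : S.card ≠ 0 := by
    intro h
    rw [Finset.card_eq_zero] at h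
    rw [h, Finset.sum_empty] at hsum
    have : (2 : ℚ) ≤ q := by exact_mod_cast hq
    linarith
  obtain ⟨A, rfl⟩ := Finset.card_eq_one.1 (by omega : S.card = 1)
  refine ⟨A, rfl, ?_⟩
  rw [Finset.sum_singleton] at hsum
  have hk1 := (hk A (Finset.mem_singleton_self A)).1
  have hk0 : (0 : ℚ) < k A := by exact_mod_cast hk1
  have h1 : (q : ℚ) / k A = q := by linarith
  rw [div_eq_iff hk0.ne'] at h1
  have h2 : (q : ℚ) * (k A - 1) = 0 := by linarith
  have h3 : (k A : ℚ) = 1 := by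
    rcases mul_eq_zero.1 h2 with h | h
    · exact absurd h hq0.ne'
    · linarith
  exact_mod_cast h3

theorem ari_min (q : ℕ) (hq : 2 ≤ q) (hsf : Squarefree q) (hnp : ¬ q.Prime) :
    q.minFac * (q.minFac + 1) ≤ q := by
  have hp := Nat.minFac_prime (by omega : q ≠ 1)
  obtain ⟨r, hr⟩ := Nat.minFac_dvd q
  have hr1 : r ≠ 1 := by
    rintro rfl
    apply hnp
    rw [mul_one] at hr
    rw [hr]
    exact hp
  have hr0 : r ≠ 0 := by
    rintro rfl
    omega
  have h1 := Nat.minFac_prime hr1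
  have h2 : r.minFac ∣ q := (Nat.minFac_dvd r).trans ⟨q.minFac, by rw [mul_comm]; exact hr⟩
  have h3 : q.minFac ≤ r.minFac := Nat.minFac_le_of_dvd h1.two_le h2
  have h4 : r.minFac ≠ q.minFac := by
    intro h
    have h5 : q.minFac * q.minFac ∣ q := by
      conv_rhs => rw [hr]
      refine mul_dvd_mul_left _ ?_
      rw [← h]
      exact Nat.minFac_dvd r
    exact hp.one_lt.ne' (Nat.isUnit_iff.1 (hsf _ h5))
  have h5 : r.minFac ≤ r := Nat.minFac_le (by omega)
  calc q.minFac * (q.minFac + 1) ≤ q.minFac * r := Nat.mul_le_mul_left _ (by omega)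
    _ = q := hr.symm

end Pool.H67.CR
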