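import Pool.Agent.H67.CR.Defs

/-!
# Row Ava (MP_718a21_CR): averages over the a-lines (150 lines)

`Av E q a f y = (∑ z with E a y z, f z) / q`.
* `av_line`: the filters for `y` and `z` are the same set.
* `av_of_inv`: the sum is `q * f y` (`h.cls`).
* `av_comm`: if `a = b` trivial. Otherwise both sides are `(∑ w, N(y,w) f w) / q^2` with
  `N(y,w) = #{z | E a y z ∧ E b z w}` and `#{z | E b y z ∧ E a z w}`: each of them is at most one (`h.one`: two such z, z'
  satisfy `E a z z'` and `E b z z'`), and one is positive iff the other is (`h.comm`). (`Finset.sum_comm'`, or write the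
  inner sums over `univ` with `if`, `Finset.sum_ite_mem`/`Finset.sum_comm`.)
* `av_sum`: exchange the sums: `∑ y ∈ Z, ∑ z with E a y z, f z = ∑ z ∈ Z, (#{y ∈ Z | E a y z}) f z`, the number is `q`.
* `av_mul`: `∑ y, ∑ z with E a y z, f z * g y`, `g y = g z`, exchange.
* `av_inv`: if `E a y z` with `a ∈ D`: if `a = b` it is `av_line`; in general `Av a (Av b f) = Av b (Av a f) = Av b f`
  (`av_comm`, `av_of_inv`), and `Av a (..)` is constant on the `a`-lines.
-/

set_option autoImplicit false

namespace Pool.H67.CR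

open Finset Classical

variable {Ω J : Type*} [Fintype Ω] [Fintype J] {E T : J → Ω → Ω → Prop} {q : ℕ}

theorem Ava_filter (h : Co E T q) (a : J) {y z : Ω} (hyz : E a y z) :
    (univ.filter fun w => E a y w) = univ.filter fun w => E a z w := by
  ext w
  simp only [mem_filter, mem_univ, true_and]
  exact ⟨fun hw => h.trans a z y w (h.symm a y z hyz) hw, fun hw => h.trans a y z w hyz hw⟩

theorem av_line (h : Co E T q) (a : J) (f : Ω → ℚ) {y z : Ω} (hyz : E a y z) :
    Av E q a f y = Av E q a f z := by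
  unfold Av
  rw [Ava_filter h a hyz]

theorem av_of_inv (h : Co E T q) (hq : 2 ≤ q) (a : J) (f : Ω → ℚ) (hf : ∀ y z, E a y z → f y = f z) :
    Av E q a f = f := by
  funext y
  unfold Av
  have h1 : ∑ z ∈ univ.filter (fun z => E a y z), f z =
      ∑ z ∈ univ.filter (fun z => E a y z), f y := by
    refine sum_congr rfl fun z hz => ?_
    rw [mem_filter] at hz
    exact (hf y z hz.2).symm
  rw [h1, sum_const, h.cls, nsmul_eq_mul]
  have := h.qpos hq
  field_simp

theorem Ava_two (a b : J) (f : Ω → ℚ) (y : Ω) :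
    Av E q a (Av E q b f) y =
      (∑ w, ((univ.filter fun z => E a y z ∧ E b z w).card : ℚ) * f w) / q / q := by
  unfold Av
  rw [← sum_div]
  congr 2
  have h1 : ∀ z, ∑ w ∈ univ.filter (fun w => E b z w), f w = ∑ w, if E b z w then f w else 0 := by
    intro z
    rw [sum_filter]
  simp only [h1]
  rw [sum_filter]
  have h2 : ∀ z, (if E a y z then ∑ w, (if E b z w then f w else 0) else 0) =
      ∑ w, if (E a y z ∧ E b z w) then f w else 0 := by
    intro z
    by_cases hz : E a y z
    · simp [hz]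
    · simp [hz]
  simp only [h2]
  rw [sum_comm]
  refine sum_congr rfl fun w _ => ?_
  rw [← sum_filter, sum_const, nsmul_eq_mul]

theorem Ava_card (h : Co E T q) {a b : J} (hab : a ≠ b) (y w : Ω) :
    (univ.filter fun z => E a y z ∧ E b z w).card ≤ 1 := by
  rw [card_le_one]
  intro z hz z' hz'
  simp only [mem_filter, mem_univ, true_and] at hz hz'
  refine h.one a b z z' hab ?_ ?_
  · exact h.trans a z y z' (h.symm a y z hz.1) hz'.1
  · exact h.trans b z w z' hz.2 (h.symm b z' w hz'.2)

theorem Ava_le (h : Co E T q) {a b : J} (hab : a ≠ b) (y w : Ω) :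
    (univ.filter fun z => E a y z ∧ E b z w).card ≤ (univ.filter fun z => E b y z ∧ E a z w).card := by
  rcases (univ.filter fun z => E a y z ∧ E b z w).eq_empty_or_nonempty with h0 | ⟨z, hz⟩
  · rw [h0]
    simp
  · simp only [mem_filter, mem_univ, true_and] at hz
    obtain ⟨v, hv1, hv2⟩ := h.comm a b y z w hz.1 hz.2
    refine (Ava_card h hab y w).trans ?_
    rw [Nat.one_le_iff_ne_zero, card_ne_zero]
    exact ⟨v, by simp [hv1, hv2]⟩

theorem av_comm (h : Co E T q) (a b : J) (f : Ω → ℚ) :
    Av E q a (Av E q b f) = Av E q b (Av E q a f) := by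
  by_cases hab : a = b
  · rw [hab]
  funext y
  rw [Ava_two, Ava_two]
  congr 2
  refine sum_congr rfl fun w _ => ?_
  congr 2
  exact le_antisymm (Ava_le h hab y w) (Ava_le h (Ne.symm hab) y w)

theorem av_sum (h : Co E T q) (hq : 2 ≤ q) (a : J) (f : Ω → ℚ) (Z : Finset Ω) (hZ : Clo E {a} Z) :
    ∑ y ∈ Z, Av E q a f y = ∑ y ∈ Z, f y := by
  unfold Av
  rw [← sum_div]
  have h1 : ∑ y ∈ Z, ∑ z ∈ univ.filter (fun z => E a y z), f z = ∑ y ∈ Z, (q : ℚ) * f y := by
    have h2 : ∀ y, ∑ z ∈ univ.filter (fun z => E a y z), f z = ∑ z, if E a y z then f z else 0 := by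
      intro y
      rw [sum_filter]
    simp only [h2]
    rw [sum_comm, ← sum_filter_add_sum_filter_not univ (fun z => z ∈ Z)]
    have h3 : ∑ z ∈ univ.filter (fun z => ¬ z ∈ Z), ∑ y ∈ Z, (if E a y z then f z else 0) = 0 := by
      refine sum_eq_zero fun z hz => sum_eq_zero fun y hy => ?_
      rw [mem_filter] at hz
      rw [if_neg]
      intro hyz
      exact hz.2 (hZ a (mem_singleton_self a) y z hyz hy)
    rw [h3, add_zero]
    have h4 : (univ.filter fun z => z ∈ Z) = Z := by
      ext z
      simp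
    rw [h4]
    refine sum_congr rfl fun z hz => ?_
    rw [← sum_filter, sum_const, nsmul_eq_mul]
    congr 2
    rw [← h.cls a z]
    congr 1
    ext y
    simp only [mem_filter, mem_univ, true_and]
    constructor
    · rintro ⟨_, h5⟩
      exact h.symm a y z h5
    · intro h5
      exact ⟨hZ a (mem_singleton_self a) z y h5 hz, h.symm a z y h5⟩
  rw [h1, ← mul_sum]
  have := h.qpos hq
  field_simp

theorem av_mul (h : Co E T q) (hq : 2 ≤ q) (a : J) (f g : Ω → ℚ) (hg : ∀ y z, E a y z → g y = g z) :
    ∑ y, Av E q a f y * g y = ∑ y, f y * g y := by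
  have h1 : ∀ y, Av E q a f y * g y = Av E q a (fun z => f z * g z) y := by
    intro y
    unfold Av
    rw [div_mul_eq_mul_div, sum_mul]
    congr 1
    refine sum_congr rfl fun z hz => ?_
    rw [mem_filter] at hz
    rw [hg y z hz.2]
  simp only [h1]
  exact av_sum h hq a _ univ (fun _ _ _ _ _ _ => mem_univ _)

theorem av_inv (h : Co E T q) (hq : 2 ≤ q) {D : Finset J} {f : Ω → ℚ} (hf : Inv E D f) (b : J) :
    Inv E D (Av E q b f) := by
  intro a ha y z hyz
  have h1 : Av E q b f = Av E q a (Av E q b f) := by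
    rw [av_comm h a b f, av_of_inv h hq a f (hf a ha)]
  rw [h1]
  exact av_line h a _ hyz

theorem av_zero (a : J) : Av E q a (0 : Ω → ℚ) = 0 := by
  funext y
  simp [Av]

end Pool.H67.CR
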