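import Pool.Agent.H67.CR.Defs

/-!
# Coregular points: circles of directions and transport of segments
-/

set_option autoImplicit false

namespace Pool.H67.CR

open Finset Classical

variable {Ω J : Type*} [Fintype Ω] [Fintype J] {E T : J → Ω → Ω → Prop} {q : ℕ}

/-- circles: sets of `q + 1` directions, one through every three directions; a line in a direction outside the circle
meets every class of the circle exactly once -/
structure Cir (E : J → Ω → Ω → Prop) (q : ℕ) (F : Finset J → Prop) : Prop where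
  card : ∀ A, F A → A.card = q + 1
  three : ∀ i j k, i ≠ j → j ≠ k → i ≠ k → ∃ A, F A ∧ i ∈ A ∧ j ∈ A ∧ k ∈ A
  uniq : ∀ A B, F A → F B → ∀ i j k, i ≠ j → j ≠ k → i ≠ k → i ∈ A → j ∈ A → k ∈ A → i ∈ B → j ∈ B →
    k ∈ B → A = B
  meet : ∀ A, F A → ∀ n, n ∉ A → ∀ y z, ∃ w, E n y w ∧ Rel E A z w
  once : ∀ A, F A → ∀ n, n ∉ A → ∀ w w', E n w w' → Rel E A w w' → w = w'

/-- transport of the `i`-segment `(y, y')` to the `i`-segment `(z, z')` in two steps -/
def Two (E : J → Ω → Ω → Prop) (i : J) (y y' z z' : Ω) : Prop :=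
  ∃ a b w w', a ≠ i ∧ b ≠ i ∧ E i y y' ∧ E i w w' ∧ E i z z' ∧ E a y w ∧ E b w z ∧ E a y' w' ∧ E b w' z'

/-- maps which move along the `i`-lines and preserve the other directions -/
def Pres (E : J → Ω → Ω → Prop) (i : J) (σ : Ω → Ω) : Prop :=
  (∀ y, E i y (σ y)) ∧ ∀ a, a ≠ i → ∀ y z, E a y z → E a (σ y) (σ z)

/-- Lemma V: in a closed path with directions `a, b, c, d`, `a, b, c` in a circle, also `d` is in the circle -/
theorem lemV {F : Finset J → Prop} (hc : Cir E q F) {A : Finset J} (hA : F A) {a b c d : J}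
    {y w z v : Ω} (ha : a ∈ A) (hb : b ∈ A) (hcA : c ∈ A) (h1 : E a y w) (h2 : E b w z) (h3 : E c z v)
    (h4 : E d v y) (hne : v ≠ y) : d ∈ A := by
  by_contra hd
  have h5 : Rel E A y v := ((Rel.of ha h1).trans (Rel.of hb h2)).trans (Rel.of hcA h3)
  exact hne (hc.once A hA d hd v y h4 h5.symm)

end Pool.H67.CR
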