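import Pool.Agent.H67.CR.Span
import Pool.Agent.H67.CR.Ari
import Pool.Agent.H67.CR.Cirdef

/-!
# Row Circ (MP_718a21_CR): the circles for squarefree q (150 lines)

`circ_one`: `i, j, k` different, `y` a point: exactly one `A` with `Fam E q A` and `{i,j,k} ⊆ A`, and `|Cl E A y| = q^3`.
Proof: `ari` with `S` = the filter of `span_id` and `k A = |Cl E A y| / q^3` (`cl_card`: `|Cl| = k q^3`, `1 ≤ k < q`). Divisibility for
`A ≠ B` in `S`: `Cl A y ∩ Cl B y` is closed under `i, j, k`, so `q^3 ∣` its size (`tri_dvd`), and `q^4 * size = |Cl A y| |Cl B y| =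
k A k B q^6` (`orth`), so `size = k A k B q^2`, `q ∣ k A k B`. The sum: `q^4 / (k q^3) = q / k`.
`circ`: the family is a system of circles (structure `Cir` in file `Cirdef`):
* `card`: definition. `three`, `uniq`: `circ_one` (any `y`; `Ω` is not empty, `q^4 > 0`). Note the `A` of `circ_one` does not depend on
 `y` by uniqueness.
* `A` in the family has `q + 1 ≥ 3` elements, so contains three different `i, j, k` (`Finset.two_lt_card`), and
 `|Cl E A y| = q^3` for all `y` by `circ_one` (uniqueness).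
* `meet`: `siz` with `Z = Cl E A z`: `q^3 * #(Z ∩ n-line of y) = q^3`: the number is one, so there is `w`.
* `once`: `Z = Cl E A w`: `w` and `w'` are both in `Z` and on the `n`-line of `w`, the number is one
 (`Finset.card_le_one` / `card_eq_one`).
-/

set_option autoImplicit false

namespace Pool.H67.CR

open Finset Classical

variable {Ω J : Type*} [Fintype Ω] [Fintype J] {E T : J → Ω → Ω → Prop} {q : ℕ}

theorem circ_one (h : Co E T q) (hq : 2 ≤ q) (hsf : Squarefree q) (i j k : J) (hij : i ≠ j) (hjk : j ≠ k)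
    (hik : i ≠ k) (y : Ω) :
    ∃ A, (univ : Finset (Finset J)).filter (fun A => Fam E q A ∧ {i, j, k} ⊆ A) = {A} ∧
      (Cl E A y).card = q ^ 3 := by
  have hq0 : 0 < q := by omega
  have hq3 : 0 < q ^ 3 := by positivity
  let kk : Finset J → ℕ := fun A => (Cl E A y).card / q ^ 3
  have hkk : ∀ A, Fam E q A → 1 ≤ kk A ∧ kk A < q ∧ (Cl E A y).card = kk A * q ^ 3 := by
    intro A hA
    obtain ⟨m, h1, h2, h3⟩ := cl_card h hq A hA y
    have hm : kk A = m := by
      change (Cl E A y).card / q ^ 3 = m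
      rw [h3]
      exact Nat.mul_div_cancel m hq3
    rw [hm]
    exact ⟨h1, h2, h3⟩
  have hmem : ∀ A ∈ (univ : Finset (Finset J)).filter (fun A => Fam E q A ∧ {i, j, k} ⊆ A),
      Fam E q A ∧ {i, j, k} ⊆ A := by
    intro A hA
    exact (Finset.mem_filter.1 hA).2
  have hd : ∀ A ∈ (univ : Finset (Finset J)).filter (fun A => Fam E q A ∧ {i, j, k} ⊆ A),
      ∀ B ∈ (univ : Finset (Finset J)).filter (fun A => Fam E q A ∧ {i, j, k} ⊆ A), A ≠ B →
      q ∣ kk A * kk B := by
    intro A hA B hB hAB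
    obtain ⟨hA1, hA2⟩ := hmem A hA
    obtain ⟨hB1, hB2⟩ := hmem B hB
    have h1 := orth h hq A B hA1.1 hB1.1 hAB (Cl E A y) (Cl E B y) (Cl_clo A y) (Cl_clo B y)
    rw [(hkk A hA1).2.2, (hkk B hB1).2.2] at h1
    have h2 : (Cl E A y ∩ Cl E B y).card = kk A * kk B * q ^ 2 := by
      have h3 : q ^ 4 * (Cl E A y ∩ Cl E B y).card = q ^ 4 * (kk A * kk B * q ^ 2) := by
        rw [h1]; ring
      exact Nat.eq_of_mul_eq_mul_left (by positivity) h3
    have h3 : q ^ 3 ∣ (Cl E A y ∩ Cl E B y).card := by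
      refine tri_dvd h i j k hij hjk hik _ ?_
      intro a ha u v huv hu
      rw [Finset.mem_inter] at hu ⊢
      exact ⟨Cl_clo A y a (hA2 ha) u v huv hu.1, Cl_clo B y a (hB2 ha) u v huv hu.2⟩
    rw [h2] at h3
    have h4 : q * q ^ 2 ∣ kk A * kk B * q ^ 2 := by
      have : q * q ^ 2 = q ^ 3 := by ring
      rw [this]
      exact h3
    exact Nat.dvd_of_mul_dvd_mul_right (by positivity) h4
  have hsum : ∑ A ∈ (univ : Finset (Finset J)).filter (fun A => Fam E q A ∧ {i, j, k} ⊆ A),
      ((q : ℚ) / kk A - 1) = q - 1 := by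
    rw [← span_id h hq i j k hij hjk hik y]
    refine Finset.sum_congr rfl ?_
    intro A hA
    obtain ⟨h1, h2, h3⟩ := hkk A (hmem A hA).1
    rw [h3]
    have hk0 : (kk A : ℚ) ≠ 0 := by
      have : 0 < kk A := h1
      positivity
    have hq0' : (q : ℚ) ≠ 0 := h.qpos hq
    push_cast
    field_simp
  obtain ⟨A, hA1, hA2⟩ := ari q hq hsf _ kk
    (fun A hA => ⟨(hkk A (hmem A hA).1).1, (hkk A (hmem A hA).1).2.1⟩) hd hsum
  refine ⟨A, hA1, ?_⟩
  have hAS : A ∈ (univ : Finset (Finset J)).filter (fun A => Fam E q A ∧ {i, j, k} ⊆ A) := by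
    rw [hA1]
    exact Finset.mem_singleton_self A
  have := (hkk A (hmem A hAS).1).2.2
  rw [this, hA2, one_mul]

theorem Circ_cl (h : Co E T q) (hq : 2 ≤ q) (hsf : Squarefree q) (A : Finset J) (hA : Fam E q A) (y : Ω) :
    (Cl E A y).card = q ^ 3 := by
  have h2 : 2 < A.card := by
    rw [hA.1]; omega
  obtain ⟨i, hi, j, hj, k, hk, hij, hik, hjk⟩ := Finset.two_lt_card.1 h2
  obtain ⟨B, hB1, hB2⟩ := circ_one h hq hsf i j k hij hjk hik y
  have hAm : A ∈ (univ : Finset (Finset J)).filter (fun A => Fam E q A ∧ {i, j, k} ⊆ A) := by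
    refine Finset.mem_filter.2 ⟨Finset.mem_univ _, hA, ?_⟩
    intro a ha
    simp only [Finset.mem_insert, Finset.mem_singleton] at ha
    rcases ha with rfl | rfl | rfl
    · exact hi
    · exact hj
    · exact hk
  rw [hB1, Finset.mem_singleton] at hAm
  rw [hAm]
  exact hB2

theorem Circ_line (h : Co E T q) (hq : 2 ≤ q) (hsf : Squarefree q) (A : Finset J) (hA : Fam E q A)
    (n : J) (hn : n ∉ A) (y z : Ω) : ((Cl E A z).filter (fun w => E n y w)).card = 1 := by
  have h1 := siz h hq A hA.1 n hn (Cl E A z) (Cl_clo A z) y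
  rw [Circ_cl h hq hsf A hA z] at h1
  have hq0 : 0 < q := by omega
  have h2 : q ^ 3 * ((Cl E A z).filter (fun w => E n y w)).card = q ^ 3 * 1 := by
    rw [mul_one]
    exact h1
  exact Nat.eq_of_mul_eq_mul_left (by positivity) h2

theorem circ (h : Co E T q) (hq : 2 ≤ q) (hsf : Squarefree q) : Cir E q (Fam E q) := by
  have hΩ : Nonempty Ω := by
    rw [← Fintype.card_pos_iff, h.pts]
    have hq0 : 0 < q := by omega
    positivity
  obtain ⟨y0⟩ := hΩ
  refine ⟨fun A hA => hA.1, ?_, ?_, ?_, ?_⟩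
  · intro i j k hij hjk hik
    obtain ⟨A, hA1, _⟩ := circ_one h hq hsf i j k hij hjk hik y0
    have hAm : A ∈ (univ : Finset (Finset J)).filter (fun A => Fam E q A ∧ {i, j, k} ⊆ A) := by
      rw [hA1]
      exact Finset.mem_singleton_self A
    obtain ⟨_, h1, h2⟩ := Finset.mem_filter.1 hAm
    exact ⟨A, h1, h2 (by simp), h2 (by simp), h2 (by simp)⟩
  · intro A B hA hB i j k hij hjk hik hiA hjA hkA hiB hjB hkB
    obtain ⟨A0, hA1, _⟩ := circ_one h hq hsf i j k hij hjk hik y0
    have key : ∀ B, Fam E q B → i ∈ B → j ∈ B → k ∈ B → B = A0 := by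
      intro B hB h1 h2 h3
      have hAm : B ∈ (univ : Finset (Finset J)).filter (fun A => Fam E q A ∧ {i, j, k} ⊆ A) := by
        refine Finset.mem_filter.2 ⟨Finset.mem_univ _, hB, ?_⟩
        intro a ha
        simp only [Finset.mem_insert, Finset.mem_singleton] at ha
        rcases ha with rfl | rfl | rfl
        · exact h1
        · exact h2
        · exact h3
      rwa [hA1, Finset.mem_singleton] at hAm
    rw [key A hA hiA hjA hkA, key B hB hiB hjB hkB]
  · intro A hA n hn y z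
    have h1 := Circ_line h hq hsf A hA n hn y z
    obtain ⟨w, hw⟩ := Finset.card_eq_one.1 h1
    have hwm : w ∈ (Cl E A z).filter (fun w => E n y w) := by
      rw [hw]
      exact Finset.mem_singleton_self w
    obtain ⟨h2, h3⟩ := Finset.mem_filter.1 hwm
    exact ⟨w, h3, mem_Cl.1 h2⟩
  · intro A hA n hn w w' h1 h2
    have h3 := Circ_line h hq hsf A hA n hn w w
    obtain ⟨v, hv⟩ := Finset.card_eq_one.1 h3
    have hw : w ∈ (Cl E A w).filter (fun z => E n w z) :=
      Finset.mem_filter.2 ⟨Cl_self A w, h.refl n w⟩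
    have hw' : w' ∈ (Cl E A w).filter (fun z => E n w z) :=
      Finset.mem_filter.2 ⟨mem_Cl.2 h2, h1⟩
    rw [hv, Finset.mem_singleton] at hw hw'
    rw [hw, hw']

end Pool.H67.CR
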