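import Mathlib

/-!
# Coregular points of generalized quadrangles of order (q, q^2): the abstract structure

`Ω` is the set of points not collinear with `x`, `J` the set of lines through `x` (the directions).
`E a y z`: `z` is on the line through `y` that meets the line `a`.
`T a y z`: `y` and `z` are collinear with the same point of `a`.
-/

set_option autoImplicit false

namespace Pool.H67.CR

open Finset Classical

variable {Ω J : Type*} [Fintype Ω] [Fintype J]

/-- the properties of the directions at a coregular point of a generalized quadrangle of order `(q, q^2)` -/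
structure Co (E T : J → Ω → Ω → Prop) (q : ℕ) : Prop where
  refl : ∀ a y, E a y y
  symm : ∀ a y z, E a y z → E a z y
  trans : ∀ a y z w, E a y z → E a z w → E a y w
  cls : ∀ a y, (univ.filter (fun z => E a y z)).card = q
  one : ∀ a b y z, a ≠ b → E a y z → E b y z → y = z
  notri : ∀ a b c y z w, a ≠ b → b ≠ c → a ≠ c → E a y z → E b z w → E c w y → y = z
  comm : ∀ a b y z w, E a y z → E b z w → ∃ v, E b y v ∧ E a v w
  dirs : Fintype.card J = q ^ 2 + 1
  pts : Fintype.card Ω = q ^ 4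
  Trefl : ∀ a y, T a y y
  Tsymm : ∀ a y z, T a y z → T a z y
  Ttrans : ∀ a y z w, T a y z → T a z w → T a y w
  ET : ∀ a y z, E a y z → T a y z
  meetT : ∀ a b y z, a ≠ b → ∃ w, E b y w ∧ T a w z
  oneT : ∀ a b y z, a ≠ b → E b y z → T a y z → y = z
  ex : ∀ a y z, ¬ T a y z → ∃ b w, b ≠ a ∧ E a y w ∧ E b w z
  tri : ∀ y z, (∀ a, ¬ E a y z) → (univ.filter (fun a => T a y z)).card = q + 1

/-- functions constant on the `a`-lines, for all `a ∈ D` -/
def Inv (E : J → Ω → Ω → Prop) (D : Finset J) (f : Ω → ℚ) : Prop :=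
  ∀ a ∈ D, ∀ y z, E a y z → f y = f z

/-- sets that are unions of `a`-lines, for all `a ∈ D` -/
def Clo (E : J → Ω → Ω → Prop) (D : Finset J) (Z : Finset Ω) : Prop :=
  ∀ a ∈ D, ∀ y z, E a y z → y ∈ Z → z ∈ Z

/-- the average over the `a`-line -/
noncomputable def Av (E : J → Ω → Ω → Prop) (q : ℕ) (a : J) (f : Ω → ℚ) (y : Ω) : ℚ :=
  (∑ z ∈ univ.filter (fun z => E a y z), f z) / q

/-- `y` and `z` are joined by a path with directions in `D` -/
def Rel (E : J → Ω → Ω → Prop) (D : Finset J) : Ω → Ω → Prop :=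
  Relation.EqvGen (fun y z => ∃ a ∈ D, E a y z)

/-- the class of `y` -/
noncomputable def Cl (E : J → Ω → Ω → Prop) (D : Finset J) (y : Ω) : Finset Ω :=
  univ.filter (fun z => Rel E D y z)

/-- sets of `q + 1` directions which leave a nonzero function of sum zero invariant -/
def Fam (E : J → Ω → Ω → Prop) (q : ℕ) (A : Finset J) : Prop :=
  A.card = q + 1 ∧ ∃ f : Ω → ℚ, f ≠ 0 ∧ ∑ y, f y = 0 ∧ Inv E A f

section api

variable {E T : J → Ω → Ω → Prop} {q : ℕ}

omit [Fintype Ω] [Fintype J] in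
theorem Inv.mono {D D' : Finset J} {f : Ω → ℚ} (h : Inv E D f) (hD : D' ⊆ D) : Inv E D' f :=
  fun a ha => h a (hD ha)

omit [Fintype Ω] [Fintype J] in
theorem Clo.mono {D D' : Finset J} {Z : Finset Ω} (h : Clo E D Z) (hD : D' ⊆ D) : Clo E D' Z :=
  fun a ha => h a (hD ha)

omit [Fintype Ω] [Fintype J] in
theorem Rel.refl (D : Finset J) (y : Ω) : Rel E D y y := Relation.EqvGen.refl y

omit [Fintype Ω] [Fintype J] in
theorem Rel.symm {D : Finset J} {y z : Ω} (h : Rel E D y z) : Rel E D z y := Relation.EqvGen.symm _ _ h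

omit [Fintype Ω] [Fintype J] in
theorem Rel.trans {D : Finset J} {y z w : Ω} (h : Rel E D y z) (h' : Rel E D z w) : Rel E D y w :=
  Relation.EqvGen.trans _ _ _ h h'

omit [Fintype Ω] [Fintype J] in
theorem Rel.of {D : Finset J} {a : J} (ha : a ∈ D) {y z : Ω} (h : E a y z) : Rel E D y z :=
  Relation.EqvGen.rel _ _ ⟨a, ha, h⟩

omit [Fintype Ω] [Fintype J] in
theorem Rel.mono {D D' : Finset J} (hD : D' ⊆ D) {y z : Ω} (h : Rel E D' y z) : Rel E D y z := by
  induction h with
  | rel y z h => obtain ⟨a, ha, h⟩ := h; exact Rel.of (hD ha) h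
  | refl y => exact Rel.refl D y
  | symm y z _ ih => exact ih.symm
  | trans y z w _ _ ih1 ih2 => exact ih1.trans ih2

omit [Fintype Ω] [Fintype J] in
theorem Inv.rel {D : Finset J} {f : Ω → ℚ} (h : Inv E D f) {y z : Ω} (hyz : Rel E D y z) : f y = f z := by
  induction hyz with
  | rel y z h' => obtain ⟨a, ha, h'⟩ := h'; exact h a ha y z h'
  | refl y => rfl
  | symm y z _ ih => exact ih.symm
  | trans y z w _ _ ih1 ih2 => exact ih1.trans ih2

omit [Fintype J] in
theorem mem_Cl {D : Finset J} {y z : Ω} : z ∈ Cl E D y ↔ Rel E D y z := by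
  simp [Cl]

omit [Fintype J] in
theorem Cl_self (D : Finset J) (y : Ω) : y ∈ Cl E D y := mem_Cl.2 (Rel.refl D y)

omit [Fintype J] in
theorem Cl_clo (D : Finset J) (y : Ω) : Clo E D (Cl E D y) := by
  intro a ha u v huv hu
  rw [mem_Cl] at hu ⊢
  exact hu.trans (Rel.of ha huv)

omit [Fintype J] in
theorem Cl_eq {D : Finset J} {y z : Ω} (h : Rel E D y z) : Cl E D y = Cl E D z := by
  ext w
  rw [mem_Cl, mem_Cl]
  exact ⟨fun h' => h.symm.trans h', fun h' => h.trans h'⟩

omit [Fintype J] in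
theorem Cl_disj {D : Finset J} {y z : Ω} (h : ¬ Rel E D y z) : Disjoint (Cl E D y) (Cl E D z) := by
  rw [Finset.disjoint_left]
  intro w h1 h2
  rw [mem_Cl] at h1 h2
  exact h (h1.trans h2.symm)

/-- a union of classes, with symmetry of the relations: membership is invariant -/
theorem Clo.iff (h : Co E T q) {D : Finset J} {Z : Finset Ω} (hZ : Clo E D Z) {a : J} (ha : a ∈ D) {y z : Ω}
    (hyz : E a y z) : y ∈ Z ↔ z ∈ Z :=
  ⟨hZ a ha y z hyz, hZ a ha z y (h.symm a y z hyz)⟩

/-- indicator functions of unions of lines are invariant -/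
theorem Clo.inv (h : Co E T q) {D : Finset J} {Z : Finset Ω} (hZ : Clo E D Z) (c : ℚ) :
    Inv E D (fun y => (if y ∈ Z then 1 else 0) - c) := by
  intro a ha y z hyz
  have := hZ.iff h ha hyz
  by_cases hy : y ∈ Z
  · simp [hy, this.1 hy]
  · have hz : z ∉ Z := fun hz => hy (this.2 hz)
    simp [hy, hz]

theorem Co.qpos (_h : Co E T q) (hq : 2 ≤ q) : (q : ℚ) ≠ 0 := by
  have : 0 < q := by omega
  positivity

end api

end Pool.H67.CR
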