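import Pool.Agent.H67.CR.Gra
import Pool.Agent.H67.CR.Ari

/-!
# Row Fin (MP_718a21_CR): the contradiction (150 lines)

`fin`: `q` squarefree, not prime, `q ≥ 2`, circles and all the symmetries exist: contradiction.
Note `q ≥ 6` (or at least `q ≥ 4`): `ari_min` gives `q ≥ 2 * 3`.
(1) Choose a circle `A` (three different directions exist as `card J = q^2 + 1`; `hc.three`) and `d ∉ A` (`hc.card`). Let
 `K = insert d A`, `K.card = q + 2`. Every two points are joined in directions of `K`: `Rel E K y z`: `hc.meet A _ d _ y z`: `w` with `E d y w`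
 and `Rel E A z w`.
(2) Let `p = q.minFac`. For every `i`, `Th h i` has order `q` (`th_card`), so by Cauchy (`exists_prime_orderOf_dvd_card'`) it contains
 `ζ i` of order `p`.
(3) Let `S = Subgroup.closure {ζ i | i ∉ K}`. Its elements commute with each other (generators commute by `th_comm`; `Subgroup.closureCommGroupOfComm`
 or `Subgroup.closure_induction₂`), satisfy `g ^ p = 1` (closure induction: `(x * y)^p = x^p y^p` for commuting `x`, `y`), and commute
 with every element of `Th h k`, `k ∈ K` (e.g. `S ≤ Subgroup.centralizer`).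
(4) `g ∈ S`, `g y = y` ⇒ `g = 1`: the set of fixed points of `g` is closed under `E k`, `k ∈ K`: for `E k u v` there is `θ ∈ Th h k` with
 `θ u = v` (`th_orbit`), `g v = g (θ u) = θ (g u) = θ u = v`. So by (1) everything is fixed.
(5) `S` is a `p`-group: `IsPGroup p S`, `Nat.card S = p ^ n` (`IsPGroup.iff_card`). `S` acts freely on `Ω`, so `p ^ n ∣ card Ω = q^4`: e.g.
 `card Ω = (number of orbits) * card S`, from `MulAction.selfEquivSigmaOrbitsQuotientStabilizer` / `MulAction.card_eq_sum_card_group_div_card_stabilizer`, or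
 in a direct way. As `q = p * r` with `r` prime to `p` (squarefree), `p ^ n ∣ p ^ 4 r ^ 4`, so `p ^ n ≤ p ^ 4`.
(6) `i ↦ ζ i` is injective on the complement of `K` (`th_inf`, `ζ i ≠ 1`), so `Nat.card S ≥ q^2 + 1 - (q + 2) = q^2 - q - 1`. By `ari_min`
 `q ≥ p (p + 1)`, so `q^2 - q - 1 ≥ p^4 + 2 p^3 - p - 1 > p^4`. Contradiction.
-/

set_option autoImplicit false

namespace Pool.H67.CR

open Finset Classical

variable {Ω J : Type*} [Fintype Ω] [Fintype J] {E T : J → Ω → Ω → Prop} {q : ℕ}

/-- a finite group of permutations of `Ω` whose nontrivial elements have no fixed points has order dividing `card Ω` -/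
theorem fin_free (S : Subgroup (Equiv.Perm Ω)) (hS : ∀ g ∈ S, ∀ y, g y = y → g = 1) :
    Nat.card S ∣ Fintype.card Ω := by
  have hdvd : ∀ y : Ω, MulAction.stabilizer S y = ⊥ := by
    intro y
    rw [eq_bot_iff]
    intro g hg
    rw [MulAction.mem_stabilizer_iff] at hg
    rw [Subgroup.mem_bot]
    exact Subtype.ext (hS g.1 g.2 y hg)
  have h1 := MulAction.card_eq_sum_card_group_div_card_stabilizer S Ω
  rw [h1]
  refine Finset.dvd_sum fun ω _ => ?_
  have h2 : Fintype.card (MulAction.stabilizer S (Quotient.out ω)) = 1 := by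
    rw [← Nat.card_eq_fintype_card, hdvd, Subgroup.card_bot]
  rw [h2, Nat.div_one, Nat.card_eq_fintype_card]

theorem fin_group {G : Type*} [Group G] [Finite G] {ι : Type*} (p : ℕ) (hp : p.Prime) (ζ : ι → G)
    (hζ : ∀ i, ζ i ^ p = 1) (hcomm : ∀ i j, ζ i * ζ j = ζ j * ζ i) :
    ∃ n, Nat.card (Subgroup.closure (Set.range ζ)) = p ^ n := by
  have : Fact p.Prime := ⟨hp⟩
  have hmc := Subgroup.isMulCommutative_closure (k := Set.range ζ) (by
    rintro _ ⟨i, rfl⟩ _ ⟨j, rfl⟩
    exact hcomm i j)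
  have hc : ∀ x ∈ Subgroup.closure (Set.range ζ), ∀ y ∈ Subgroup.closure (Set.range ζ),
      x * y = y * x := by
    intro x hx y hy
    have h1 := hmc.is_comm.comm ⟨x, hx⟩ ⟨y, hy⟩
    exact congrArg Subtype.val h1
  have hpow : ∀ x ∈ Subgroup.closure (Set.range ζ), x ^ p = 1 := by
    intro x hx
    induction hx using Subgroup.closure_induction with
    | mem x hx =>
      obtain ⟨i, rfl⟩ := hx
      exact hζ i
    | one => exact one_pow p
    | mul x y hx hy h1 h2 =>
      have h3 : Commute x y := hc x hx y hy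
      rw [h3.mul_pow, h1, h2, one_mul]
    | inv x hx h1 => rw [inv_pow, h1, inv_one]
  have hP : IsPGroup p (Subgroup.closure (Set.range ζ)) := by
    intro g
    refine ⟨1, ?_⟩
    rw [pow_one]
    exact Subtype.ext (hpow g.1 g.2)
  exact IsPGroup.iff_card.1 hP

theorem fin_main (h : Co E T q) (hq : 2 ≤ q) (hsf : Squarefree q) (hnp : ¬ q.Prime)
    {F : Finset J → Prop} (hc : Cir E q F)
    (hσ : ∀ i y0 y0', E i y0 y0' → ∃ σ : Ω → Ω, σ y0 = y0' ∧ Pres E i σ) : False := by
  obtain ⟨p, hpd⟩ : ∃ p, p = q.minFac := ⟨_, rfl⟩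
  have hpp : p.Prime := by
    rw [hpd]
    exact Nat.minFac_prime (by omega)
  have : Fact p.Prime := ⟨hpp⟩
  have hp2 : 2 ≤ p := hpp.two_le
  have hmin : p * (p + 1) ≤ q := by
    rw [hpd]
    exact ari_min q hq hsf hnp
  have hq6 : 6 ≤ q := by nlinarith
  have hq3 : 3 ≤ q := by omega
  have hpq : p ∣ q := by
    rw [hpd]
    exact Nat.minFac_dvd q
  -- (1)
  have hJ : 2 < Fintype.card J := by
    rw [h.dirs]
    nlinarith
  obtain ⟨i1, i2, i3, n12, n13, n23⟩ := Fintype.two_lt_card_iff.1 hJ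
  obtain ⟨A, hA, -, -, -⟩ := hc.three i1 i2 i3 n12 n23 n13
  obtain ⟨d, hd⟩ : ∃ d, d ∉ A := by
    by_contra hcon
    push Not at hcon
    have h1 : A = univ := Finset.eq_univ_iff_forall.2 hcon
    have h2 := hc.card A hA
    rw [h1, Finset.card_univ, h.dirs] at h2
    nlinarith
  obtain ⟨K, hKd⟩ : ∃ K, K = insert d A := ⟨_, rfl⟩
  have hKc : K.card = q + 2 := by
    rw [hKd, Finset.card_insert_of_notMem hd, hc.card A hA]
  have hdK : d ∈ K := by
    rw [hKd]
    exact Finset.mem_insert_self d A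
  have hAK : A ⊆ K := by
    rw [hKd]
    exact Finset.subset_insert d A
  have hrel : ∀ y z, Rel E K y z := by
    intro y z
    obtain ⟨w, hw1, hw2⟩ := hc.meet A hA d hd y z
    exact (Rel.of hdK hw1).trans (Rel.mono hAK hw2).symm
  -- (2)
  have hζ' : ∀ i, ∃ ζ : Equiv.Perm Ω, ζ ∈ Th h i ∧ ζ ^ p = 1 ∧ ζ ≠ 1 := by
    intro i
    have h1 : p ∣ Nat.card (Th h i) := by
      rw [th_card h hq3 hσ i]
      exact hpq
    obtain ⟨x, hx⟩ := exists_prime_orderOf_dvd_card' (G := Th h i) p h1
    refine ⟨x.1, x.2, ?_, ?_⟩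
    · have h2 := pow_orderOf_eq_one x
      rw [hx] at h2
      exact congrArg Subtype.val h2
    · intro h2
      have h3 : x = 1 := Subtype.ext h2
      rw [h3, orderOf_one] at hx
      omega
  choose ζ hζ1 hζ2 hζ3 using hζ'
  -- (3)
  obtain ⟨n, hn⟩ := fin_group (G := Equiv.Perm Ω) (ι := {i // i ∉ K}) p hpp (fun i => ζ i.1)
    (fun i => hζ2 i.1) (by
      intro i j
      by_cases hij : i = j
      · rw [hij]
      · exact th_comm h (fun h' => hij (Subtype.ext h')) (hζ1 i.1) (hζ1 j.1))
  obtain ⟨S, hS⟩ : ∃ S, S = Subgroup.closure (Set.range fun i : {i // i ∉ K} => ζ i.1) :=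
    ⟨_, rfl⟩
  rw [← hS] at hn
  have hcom : ∀ g ∈ S, ∀ k ∈ K, ∀ θ ∈ Th h k, g * θ = θ * g := by
    intro g hg k hk θ hθ
    rw [hS] at hg
    induction hg using Subgroup.closure_induction with
    | mem x hx =>
      obtain ⟨i, rfl⟩ := hx
      have hne : i.1 ≠ k := by
        intro h'
        apply i.2
        rw [h']
        exact hk
      exact th_comm h hne (hζ1 i.1) hθ
    | one => rw [one_mul, mul_one]
    | mul x y hx hy h1 h2 => rw [mul_assoc, h2, ← mul_assoc, h1, mul_assoc]
    | inv x hx h1 =>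
      rw [inv_mul_eq_iff_eq_mul, ← mul_assoc, h1, mul_assoc, mul_inv_cancel, mul_one]
  -- (4)
  have hfree : ∀ g ∈ S, ∀ y, g y = y → g = 1 := by
    intro g hg y hy
    have key : ∀ u v, Rel E K u v → (g u = u ↔ g v = v) := by
      intro u v huv
      induction huv with
      | rel u v h1 =>
        obtain ⟨k, hk, h1⟩ := h1
        obtain ⟨θ, hθ, h2⟩ := th_orbit h hq3 hσ h1
        have h3 := congrArg (fun f : Equiv.Perm Ω => f u) (hcom g hg k hk θ hθ)
        have h4 : g (θ u) = θ (g u) := h3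
        rw [h2] at h4
        constructor
        · intro h5
          rw [h4, h5, h2]
        · intro h5
          rw [h5, ← h2] at h4
          exact (θ.injective h4).symm
      | refl u => exact Iff.rfl
      | symm u v _ ih => exact ih.symm
      | trans u v w _ _ ih1 ih2 => exact ih1.trans ih2
    ext z
    exact (key y z (hrel y z)).1 hy
  -- (5)
  have hdv := fin_free S hfree
  rw [hn, h.pts] at hdv
  have hn4 : n ≤ 4 := by
    rw [hpp.pow_dvd_iff_le_factorization (by positivity)] at hdv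
    rw [Nat.factorization_pow] at hdv
    have h1 := hsf.natFactorization_le_one p
    have h2 : (4 • q.factorization) p = 4 * q.factorization p := rfl
    rw [h2] at hdv
    omega
  have hSle : Nat.card S ≤ p ^ 4 := by
    rw [hn]
    exact Nat.pow_le_pow_right (by omega) hn4
  -- (6)
  have hinj : Function.Injective (fun i : {i // i ∉ K} => (⟨ζ i.1, by
      rw [hS]
      exact Subgroup.subset_closure ⟨i, rfl⟩⟩ : S)) := by
    intro i j hij
    by_contra hne
    have h1 : ζ i.1 = ζ j.1 := congrArg Subtype.val hij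
    have h2 := hζ1 j.1
    rw [← h1] at h2
    exact hζ3 i.1 (th_inf h (fun h' => hne (Subtype.ext h')) (hζ1 i.1) h2)
  have hcard := Nat.card_le_card_of_injective _ hinj
  have hcc : Nat.card {i // i ∉ K} + (q + 2) = q ^ 2 + 1 := by
    rw [Nat.card_eq_fintype_card, Fintype.card_subtype_compl, Fintype.card_coe, hKc, h.dirs]
    have : q + 2 ≤ q ^ 2 + 1 := by nlinarith
    omega
  have h8 : q ^ 2 + 1 ≤ p ^ 4 + (q + 2) := by
    rw [← hcc]
    exact Nat.add_le_add_right (hcard.trans hSle) _
  have h9 : p ^ 4 + 1 + q < q ^ 2 := by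
    obtain ⟨t, ht⟩ := Nat.exists_eq_add_of_le hmin
    have hq1 : q = p * (p + 1) + t := ht
    have e1 : q ^ 2 = q * q := by ring
    have e2 : 2 * p ≤ p * p := by nlinarith
    have e3 : 4 ≤ p * p := by nlinarith
    have e4 : p * p * 4 ≤ p * p * (p * p) := Nat.mul_le_mul_left _ e3
    have e5 : 2 * (p * p) ≤ p * (p * p) := Nat.mul_le_mul_right _ hp2
    have e6 : q ^ 2 = p ^ 4 + 2 * (p * (p * p)) + p * p + 2 * t * (p * (p + 1)) + t ^ 2 := by
      rw [hq1]
      ring
    have e7 : t ≤ 2 * t * (p * (p + 1)) := by nlinarith [mul_pos (by omega : 0 < p) (by omega : 0 < p + 1)]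
    have e8 : p * (p + 1) = p * p + p := by ring
    rw [e6]
    have e9 : q = p * p + p + t := by rw [hq1, e8]
    rw [e9]
    have : 0 ≤ t ^ 2 := Nat.zero_le _
    nlinarith
  omega

end Pool.H67.CR
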