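import Pool.Agent.H67.CR.Defs
import Pool.Agent.H63.GQ.Geo

/-!
# Coregular points: definitions on the side of the quadrangle

`I : P → L → Prop`, `I p l` = the point `p` is on the line `l`; `h : Q I q` = generalized quadrangle of order
`(q, q^2)` (Pool.Agent.H63.GQ.Geo, with the lemmas `Q.tri`, `Q.refl`, `Q.cls`, `Q.card_points`, `Q.triad`, ...).
-/

set_option autoImplicit false

namespace Pool.H67.CR

open Finset Classical
open Pool.H63.GQ

variable {P L : Type*} [Fintype P] [Fintype L] {I : P → L → Prop} {q : ℕ}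

/-- two lines meet (or are equal) when some point is on both -/
def Meet (I : P → L → Prop) (k l : L) : Prop := ∃ p, I p k ∧ I p l

/-- `l` is a regular line: for every line `m` disjoint from `l` exactly `q + 1` lines meet all the lines that
meet both `l` and `m` -/
def RegLine (I : P → L → Prop) (q : ℕ) (l : L) : Prop :=
  ∀ m, ¬ Meet I l m → {n | ∀ k, Meet I k l → Meet I k m → Meet I n k}.ncard = q + 1

/-- the directions: the lines through `x` -/
abbrev Dir (I : P → L → Prop) (x : P) := {l : L // I x l}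

/-- the points not collinear with `x` -/
abbrev Far (I : P → L → Prop) (x : P) := {y : P // ¬ Col I x y}

/-- `z` is on the line through `y` which meets `a` -/
def EE (I : P → L → Prop) (x : P) (a : Dir I x) (y z : Far I x) : Prop :=
  ∃ m, I y.1 m ∧ I z.1 m ∧ Meet I m a.1

/-- `y` and `z` are collinear with the same point of `a` -/
def TT (I : P → L → Prop) (x : P) (a : Dir I x) (y z : Far I x) : Prop :=
  ∃ u, I u a.1 ∧ Col I y.1 u ∧ Col I z.1 u

omit [Fintype P] [Fintype L] in
theorem Meet.symm {k l : L} (h : Meet I k l) : Meet I l k := by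
  obtain ⟨p, h1, h2⟩ := h
  exact ⟨p, h2, h1⟩

omit [Fintype P] [Fintype L] in
/-- a far point is not on a line through `x` -/
theorem far_off {x : P} (a : Dir I x) (y : Far I x) : ¬ I y.1 a.1 :=
  fun hy => y.2 ⟨a.1, a.2, hy⟩

/-- the line through the far point `y` which meets `a`, and its point on `a` -/
theorem far_line (h : Q I q) {x : P} (a : Dir I x) (y : Far I x) :
    ∃ m u, I y.1 m ∧ I u m ∧ I u a.1 ∧ u ≠ x := by
  obtain ⟨m, u, h1, h2, h3⟩ := h.ex y.1 a.1 (far_off a y)
  refine ⟨m, u, h1, h2, h3, ?_⟩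
  rintro rfl
  exact y.2 ⟨m, h2, h1⟩

/-- uniqueness of the line through `y` meeting `a` -/
theorem far_line_unique (h : Q I q) {x : P} (a : Dir I x) (y : Far I x) {m m' : L} (hm : I y.1 m)
    (hm' : I y.1 m') (h1 : Meet I m a.1) (h2 : Meet I m' a.1) : m = m' := by
  obtain ⟨u, hu, hu'⟩ := h1
  obtain ⟨v, hv, hv'⟩ := h2
  exact h.tr y.1 a.1 (far_off a y) m m' u v hm hm' hu hu' hv hv'

end Pool.H67.CR
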