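import Pool.Agent.H67.CR.Gq

/-!
# Row Gqa (MP_718a21_CR): the relation `EE` (150 lines)

`EE I x a y z`: `z` is on the line `λ_a(y)` through `y` meeting the line `a ∋ x`. Tools: `far_off`, `far_line`,
`far_line_unique`, `h.tri`, `h.un`, `h.ex`, `h.tr`, `h.cls`, `h.card_points`, `h.nb`, `h.pt`, `h.on_line`.

* `gqa_refl`: `far_line` gives the line `m`.
* `gqa_trans`: the two lines both contain `z` and meet `a`: they agree by `far_line_unique`.
* `gqa_cls`: the points of `m = λ_a(y)` which are not collinear with `x` are all its points except the point `u` on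
  `a` (a second point `v ≠ u` of `m` collinear with `x` contradicts `h.tri` for `x ∉ m`; `x ∉ m` since `y ∈ m`).
  So the number is `(q + 1) - 1`: use `h.on_line hu` and a bijection (Subtype.val) from the filter on `Far I x`.
* `gqa_one`: if `y ≠ z` both on `m` (meeting `a`) and on `m'` (meeting `b`), then `m = m'` by `h.un`; then `m` meets
  `a` in `u` and `b` in `v`, both collinear with `x`, so `u = v` by `h.tri` (`x ∉ m`), so `u` and `x` are two
  different points on `a` and `b`, so `a = b` (`h.un`), contradiction. (`u ≠ x` as `x ∉ m`.)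
* `gqa_notri`: lines `m1 ∋ y, z`, `m2 ∋ z, w`, `m3 ∋ w, y` meeting `a, b, c`. Suppose `y ≠ z`. If `w = y`: then
  `E b z y` and `E a y z` with `a ≠ b` contradict `gqa_one`. If `w = z`: `E c z y`, `E a y z`, `a ≠ c`: the same. If
  `w ∉ m1`: `w` is collinear with the points `y, z` of `m1`, so `y = z` by `h.tri`. If `w ∈ m1`: then `m2 = m1`
  (both contain `z ≠ w`), so `E a z w` and `E b z w`, contradiction with `gqa_one`.
* `gqa_dirs`: `h.ln x`, `Fintype.card_subtype` or `Fintype.card_of_subtype`.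
* `gqa_pts`: `card_points` minus `nb x`: `(q+1)(q^3+1) - 1 - (q^2+1) q = q^4`.
-/

set_option autoImplicit false

namespace Pool.H67.CR

open Finset Classical
open Pool.H63.GQ

variable {P L : Type*} [Fintype P] [Fintype L] {I : P → L → Prop} {q : ℕ}

theorem gqa_refl (h : Q I q) (x : P) (a : Dir I x) (y : Far I x) : EE I x a y y := by
  obtain ⟨m, u, h1, h2, h3, _⟩ := far_line h a y
  exact ⟨m, h1, h1, u, h2, h3⟩

theorem gqa_symm (x : P) (a : Dir I x) (y z : Far I x) (hyz : EE I x a y z) : EE I x a z y := by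
  obtain ⟨m, h1, h2, h3⟩ := hyz
  exact ⟨m, h2, h1, h3⟩

theorem gqa_trans (h : Q I q) (x : P) (a : Dir I x) (y z w : Far I x) (hyz : EE I x a y z)
    (hzw : EE I x a z w) : EE I x a y w := by
  obtain ⟨m, h1, h2, h3⟩ := hyz
  obtain ⟨m', h1', h2', h3'⟩ := hzw
  have e := far_line_unique h a z h2 h1' h3 h3'
  subst e
  exact ⟨m, h1, h2', h3⟩

theorem gqa_off {x : P} (y : Far I x) {m : L} (hm : I y.1 m) : ¬ I x m :=
  fun hx => y.2 ⟨m, hx, hm⟩

theorem gqa_cls (h : Q I q) (x : P) (a : Dir I x) (y : Far I x) :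
    (univ.filter (fun z => EE I x a y z)).card = q := by
  obtain ⟨m, u, h1, h2, h3, _⟩ := far_line h a y
  rw [← h.on_line h2]
  refine Finset.card_bij (fun z _ => z.1) ?_ ?_ ?_
  · intro z hz
    simp only [Finset.mem_filter, Finset.mem_univ, true_and] at hz ⊢
    obtain ⟨m', h1', h2', h3'⟩ := hz
    have e := far_line_unique h a y h1 h1' ⟨u, h2, h3⟩ h3'
    subst e
    refine ⟨?_, h2'⟩
    intro hzu
    exact far_off a z (by rw [hzu]; exact h3)
  · intro z _ z' _ hzz
    exact Subtype.ext hzz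
  · intro p hp
    simp only [Finset.mem_filter, Finset.mem_univ, true_and] at hp
    have hfar : ¬ Col I x p := by
      intro hc
      exact hp.1 (h.tri (gqa_off y h1) hp.2 h2 hc ⟨a.1, a.2, h3⟩)
    refine ⟨⟨p, hfar⟩, ?_, rfl⟩
    simp only [Finset.mem_filter, Finset.mem_univ, true_and]
    exact ⟨m, h1, hp.2, u, h2, h3⟩

theorem gqa_one (h : Q I q) (x : P) (a b : Dir I x) (y z : Far I x) (hab : a ≠ b) (h1 : EE I x a y z)
    (h2 : EE I x b y z) : y = z := by
  by_contra hne
  have hne' : y.1 ≠ z.1 := fun e => hne (Subtype.ext e)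
  obtain ⟨m, hy, hz, u, hu, hu'⟩ := h1
  obtain ⟨m', hy', hz', v, hv, hv'⟩ := h2
  have e := h.un y.1 z.1 m m' hne' hy hz hy' hz'
  subst e
  have hx : ¬ I x m := gqa_off y hy
  have e2 : u = v := h.tri hx hu hv ⟨a.1, a.2, hu'⟩ ⟨b.1, b.2, hv'⟩
  subst e2
  have hux : u ≠ x := by
    rintro rfl
    exact hx hu
  exact hab (Subtype.ext (h.un u x a.1 b.1 hux hu' a.2 hv' b.2))

theorem gqa_notri (h : Q I q) (x : P) (a b c : Dir I x) (y z w : Far I x) (hab : a ≠ b) (hbc : b ≠ c)
    (hac : a ≠ c) (h1 : EE I x a y z) (h2 : EE I x b z w) (h3 : EE I x c w y) : y = z := by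
  by_contra hne
  by_cases hwy : w = y
  · subst hwy
    exact hne (gqa_one h x a b _ z hab h1 (gqa_symm x b z _ h2))
  by_cases hwz : w = z
  · subst hwz
    exact hne (gqa_one h x a c y _ hac h1 (gqa_symm x c _ y h3))
  have h1' := h1
  have h2' := h2
  obtain ⟨m1, a1, a2, a3⟩ := h1
  obtain ⟨m2, b1, b2, b3⟩ := h2
  obtain ⟨m3, c1, c2, c3⟩ := h3
  by_cases hw : I w.1 m1
  · have hzw : z.1 ≠ w.1 := fun e => hwz (Subtype.ext e.symm)
    have e := h.un z.1 w.1 m2 m1 hzw b1 b2 a2 hw
    subst e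
    exact hzw (congrArg Subtype.val (gqa_one h x a b z w hab ⟨m2, a2, hw, a3⟩ h2'))
  · exact hne (Subtype.ext (h.tri hw a1 a2 ⟨m3, c1, c2⟩ ⟨m2, b2, b1⟩))

theorem gqa_dirs (h : Q I q) (x : P) : Fintype.card (Dir I x) = q ^ 2 + 1 := by
  rw [← h.ln x, Fintype.card_subtype]

theorem gqa_pts (h : Q I q) (x : P) : Fintype.card (Far I x) = q ^ 4 := by
  obtain ⟨l, hl, _⟩ := h.refl x
  have h1 := h.card_points l
  have h2 := h.nb x
  have h3 := Finset.card_filter_add_card_filter_not (s := (univ : Finset P)) (fun p => Col I x p)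
  have h4 : (univ.filter (fun p => Col I p x)) = univ.filter (fun p => Col I x p) := by
    ext p
    simp only [Finset.mem_filter, Finset.mem_univ, true_and]
    exact col_comm
  rw [h4] at h2
  rw [h2, Finset.card_univ, h1] at h3
  have h5 : Fintype.card (Far I x) = (univ.filter (fun p => ¬ Col I x p)).card := by
    rw [Fintype.card_subtype]
  rw [h5]
  have h6 : (q + 1) * (q ^ 3 + 1) = q ^ 4 + (1 + (q ^ 2 + 1) * q) := by ring
  rw [h6] at h3
  omega

end Pool.H67.CR
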