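import Pool.Agent.H67.CR.Gqa

/-!
# Row Gqb (MP_718a21_CR): regularity gives commuting (150 lines)

Let `a` be a direction whose line is regular, `b ≠ a`. Let `EE a y z` and `EE b z w`. Then there is `v` with
`EE b y v` and `EE a v w`.

Proof. Let `m ∋ z, w` be the line meeting `b` (point `ub`, `ub ≠ x` because `x ∉ m`: `z ∈ m` is not collinear with
`x`), and `k1 ∋ y, z` the line meeting `a`.
(i) `a` and `m` are disjoint: a common point `p` is collinear with `x` (via `a`), as is `ub` (via `b`), so `p = ub`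
  by `h.tri` (`x ∉ m`), so `p` and `x` are on `a` and `b`, `p ≠ x`, so `a = b` by `h.un`.
(ii) Let `K` = lines meeting `a` and `m`, `H = {n | every k in K meets n}`, `H.ncard = q + 1` by `RegLine`.
  `k1 ∈ K` and `b ∈ K`, `k1 ≠ b` (`z ∈ k1`, `z ∉ b` by `far_off`).
(iii) two different lines `k, k'` of `K` are disjoint: let `p` be a common point. If `p ∉ a`: the points
  `k ∩ a`, `k' ∩ a` are collinear with `p`, equal by `h.tri`, so `k = k'` by `h.un` (the point and `p`). If `p ∈ a`, then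
  `p ∉ m` by (i), and the same with `m`.
(iv) the map `H → points of k1`, `n ↦` a common point of `n` and `k1`, is injective: if `n, n'` both contain `p ∈ k1`,
  then `p ∉ b` (iii), both `n` and `n'` meet `b`, so `n = n'` by `h.tr p b`. Since `k1` has `q + 1` points (`h.pt`)
  and `H` has `q + 1` elements, it is surjective: some `n ∈ H` contains `y`. (Or: the set of the points of `k1` which
  are on a line of `H` has at least `q + 1` elements, so it is everything.)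
(v) `n` meets `b`. Let `k2` be the line through `w` which meets `a` (`far_line`). It meets `m` (in `w`), so `k2 ∈ K` and
  `n` meets `k2` in a point `v`. `v` is not collinear with `x`: first `x ∉ k2`, `x ∉ n` (they contain far points).
  Suppose `v` is collinear with `x`. The point `t` of `k2` on `a` is also collinear with `x`, so `v = t ∈ a` (`h.tri`
  for `x ∉ k2`). The point `s` of `n` on `b` is collinear with `x`, so `v = s ∈ b` (`h.tri` for `x ∉ n`). So `v ∈ a ∩ b`,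
  `v = x` (else `a = b`), but `x ∉ n`. Contradiction. So `v` is a far point, `EE b y v` (line `n`), `EE a v w`
  (line `k2`).
For the theorem: if `a = b` use `gqa_trans` (take `v = y`).
-/

set_option autoImplicit false

namespace Pool.H67.CR

open Finset Classical
open Pool.H63.GQ

variable {P L : Type*} [Fintype P] [Fintype L] {I : P → L → Prop} {q : ℕ}

theorem gqb_comm (h : Q I q) (x : P) (hreg : ∀ l, I x l → RegLine I q l) (a b : Dir I x) (y z w : Far I x)
    (h1 : EE I x a y z) (h2 : EE I x b z w) : ∃ v, EE I x b y v ∧ EE I x a v w := by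
  by_cases hab : a = b
  · subst hab
    exact ⟨y, gqa_refl h x a y, gqa_trans h x a y z w h1 h2⟩
  have hne : ∀ p, p ≠ x → I p a.1 → I p b.1 → False := fun p hp hpa hpb =>
    hab (Subtype.ext (h.un p x a.1 b.1 hp hpa a.2 hpb b.2))
  obtain ⟨k1, hyk, hzk, hka⟩ := h1
  obtain ⟨m, hzm, hwm, hmb⟩ := h2
  have hxm : ¬ I x m := fun hx => z.2 ⟨m, hx, hzm⟩
  -- (i)
  have hdis : ∀ p, I p a.1 → I p m → False := by
    intro p hpa hpm
    obtain ⟨ub, hub, hub'⟩ := hmb
    have e : p = ub := h.tri hxm hpm hub ⟨a.1, a.2, hpa⟩ ⟨b.1, b.2, hub'⟩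
    subst e
    refine hne p ?_ hpa hub'
    rintro rfl
    exact hxm hpm
  have hnm : ¬ Meet I a.1 m := fun ⟨p, h3, h4⟩ => hdis p h3 h4
  have hH := hreg a.1 a.2 m hnm
  obtain ⟨H, hHdef⟩ : ∃ H, H = {n | ∀ k, Meet I k a.1 → Meet I k m → Meet I n k} := ⟨_, rfl⟩
  rw [← hHdef] at hH
  have hHm : ∀ n, n ∈ H ↔ ∀ k, Meet I k a.1 → Meet I k m → Meet I n k := fun n => by
    rw [hHdef]; rfl
  have hbK : Meet I b.1 a.1 ∧ Meet I b.1 m := ⟨⟨x, b.2, a.2⟩, hmb.symm⟩
  have hk1K : Meet I k1 a.1 ∧ Meet I k1 m := ⟨hka, ⟨z.1, hzk, hzm⟩⟩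
  have hk1b : k1 ≠ b.1 := by
    intro e
    rw [e] at hzk
    exact far_off b z hzk
  -- (iii)
  have hD : ∀ k k', (Meet I k a.1 ∧ Meet I k m) → (Meet I k' a.1 ∧ Meet I k' m) → k ≠ k' →
      ∀ p, I p k → I p k' → False := by
    rintro k k' ⟨⟨s, hsk, hsa⟩, ⟨t, htk, htm⟩⟩ ⟨⟨s', hsk', hsa'⟩, ⟨t', htk', htm'⟩⟩ hkk p hp hp'
    by_cases hpa : I p a.1
    · have hpm : ¬ I p m := fun hpm => hdis p hpa hpm
      have e : t = t' := h.tri hpm htm htm' ⟨k, hp, htk⟩ ⟨k', hp', htk'⟩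
      subst e
      refine hkk (h.un p t k k' ?_ hp htk hp' htk')
      rintro rfl
      exact hpm htm
    · have e : s = s' := h.tri hpa hsa hsa' ⟨k, hp, hsk⟩ ⟨k', hp', hsk'⟩
      subst e
      refine hkk (h.un p s k k' ?_ hp hsk hp' hsk')
      rintro rfl
      exact hpa hsa
  -- (iv)
  have hex : ∀ n ∈ H, ∃ p, I p n ∧ I p k1 := fun n hn => (hHm n).1 hn k1 hk1K.1 hk1K.2
  have hgex : ∃ g : L → P, ∀ n ∈ H, I (g n) n ∧ I (g n) k1 := by
    refine ⟨fun n => if hn : n ∈ H then (hex n hn).choose else x, fun n hn => ?_⟩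
    simp only [hn, dif_pos]
    exact (hex n hn).choose_spec
  obtain ⟨g, hg⟩ := hgex
  have hinj : Set.InjOn g H := by
    intro n hn n' hn' e
    obtain ⟨g1, g2⟩ := hg n hn
    obtain ⟨g3, g4⟩ := hg n' hn'
    rw [← e] at g3 g4
    have hpb : ¬ I (g n) b.1 := fun hpb => hD k1 b.1 hk1K hbK hk1b (g n) g2 hpb
    obtain ⟨s, hs, hs'⟩ := (hHm n).1 hn b.1 hbK.1 hbK.2
    obtain ⟨t, ht, ht'⟩ := (hHm n').1 hn' b.1 hbK.1 hbK.2
    exact h.tr (g n) b.1 hpb n n' s t g1 g3 hs hs' ht ht'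
  have hpts : {p | I p k1}.ncard = q + 1 := by
    rw [← h.pt k1, ← Set.ncard_coe_finset]
    congr 1
    ext p
    simp
  have himg : g '' H = {p | I p k1} := by
    refine Set.eq_of_subset_of_ncard_le ?_ ?_ (Set.toFinite _)
    · rintro p ⟨n, hn, rfl⟩
      exact (hg n hn).2
    · rw [hpts, Set.ncard_image_of_injOn hinj, hH]
  have hy : y.1 ∈ g '' H := by
    rw [himg]
    exact hyk
  obtain ⟨n, hn, hny⟩ := hy
  have hyn : I y.1 n := by
    rw [← hny]
    exact (hg n hn).1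
  -- (v)
  obtain ⟨s, hsn, hsb⟩ := (hHm n).1 hn b.1 hbK.1 hbK.2
  obtain ⟨k2, t, hwk2, htk2, hta, htx⟩ := far_line h a w
  obtain ⟨v, hvn, hvk2⟩ := (hHm n).1 hn k2 ⟨t, htk2, hta⟩ ⟨w.1, hwk2, hwm⟩
  have hxk2 : ¬ I x k2 := fun hx => w.2 ⟨k2, hx, hwk2⟩
  have hxn : ¬ I x n := fun hx => y.2 ⟨n, hx, hyn⟩
  have hfar : ¬ Col I x v := by
    intro hc
    have e1 : v = t := h.tri hxk2 hvk2 htk2 hc ⟨a.1, a.2, hta⟩
    have e2 : v = s := h.tri hxn hvn hsn hc ⟨b.1, b.2, hsb⟩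
    refine hne v ?_ (by rw [e1]; exact hta) (by rw [e2]; exact hsb)
    rw [e1]
    exact htx
  exact ⟨⟨v, hfar⟩, ⟨n, hyn, hvn, ⟨s, hsn, hsb⟩⟩, ⟨k2, hvk2, hwk2, ⟨t, htk2, hta⟩⟩⟩

end Pool.H67.CR
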