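import Pool.Agent.H67.CR.Gqa

/-!
# Row Gqc (MP_718a21_CR): the relation `TT` (170 lines)

`TT I x a y z`: some point `u` of `a` is collinear with `y` and `z`. (`u ≠ x` automatically, `u` is unique for `y` by
`h.tri`, because `y ∉ a`, `far_off`.)

* `gqc_Trefl`: `far_line`. `gqc_Ttrans`: the points `u` agree by `h.tri` (for `z.1 ∉ a`).
* `gqc_ET`: the common line meets `a` in `u`.
* `gqc_oneT` (`a ≠ b`, `EE b y z`, `TT a y z` ⇒ `y = z`): let `m ∋ y, z` meet `b`, `u ∈ a` collinear with both. If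
  `y ≠ z` then `u ∈ m` (else `h.tri` for `u ∉ m`), so `m` meets `a` and `b`, i.e. `EE a y z` and `EE b y z`:
  `gqa_one`.
* `gqc_meetT` (`a ≠ b`: there is `w` with `EE b y w` and `TT a w z`): let `u ∈ a` be the point collinear with `z`
  (`far_line`), `m` the line through `y` meeting `b` in `ub ≠ x`. `u ∉ m` (else `u, ub ∈ m` collinear with `x ∉ m`, so
  `u = ub ∈ a ∩ b`, `= x`; but `u ≠ x`). By `h.ex u m` there are `w ∈ m` and a line `n ∋ u, w`. `w` is far: if `w` is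
  collinear with `x` then `w = ub` (`h.tri` for `x ∉ m`), so `ub` is collinear with `u`: then `ub ∉ a` (as `a ∩ b = x`),
  and `ub` is collinear with `x` and `u`, both on `a`: `u = x` by `h.tri`, contradiction.
* `gqc_ex` (not `TT a y z` ⇒ there are `b ≠ a`, `w`, `EE a y w`, `EE b w z`): let `m ∋ y` meet `a` in `u`. `z ∉ m`
  (else `TT`). `h.ex z m`: line `n ∋ z`, point `w ∈ n ∩ m`. `w ≠ u` (else `TT a y z`), so `w` is far (`h.tri` for
  `x ∉ m`: `w` and `u` collinear with `x` would be equal). `EE a y w` by `m`. The line `n`: `x ∉ n` (z is far), by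
  `h.ex x n` there is a line `b ∋ x` meeting `n`; `EE b w z` by `n`. `b ≠ a`: if `n` meets `a` in `t`, then
  `TT a w z`, and `TT a y w`: `TT a y z`, contradiction.
* `gqc_tri` (`y`, `z` on no common `EE a`-line ⇒ exactly `q + 1` directions `a` with `TT a y z`): `y.1` and `z.1` are not
  collinear: a common line `m` of `y.1` and `z.1` does not contain `x`, `h.ex x m` gives a line `a ∋ x` meeting `m`, so
  `EE a y z`. So `x, y, z` are pairwise not collinear and have `q + 1` common neighbours by `h.triad`. Bijection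
  `{w | common neighbour} → {a | TT a y z}`: `w ↦` the line through `w` and `x` (`w ≠ x`), inverse `a ↦ u`. E.g. count
  with `Finset.card_bij`/`Finset.card_nbij'` or show: each common neighbour is on exactly one direction and each
  `a` with `TT` contains exactly one common neighbour (`Finset.card_mul_eq_card_mul` with `m = n = 1`, as in `Q.cn`).
-/

set_option autoImplicit false

namespace Pool.H67.CR

open Finset Classical
open Pool.H63.GQ

variable {P L : Type*} [Fintype P] [Fintype L] {I : P → L → Prop} {q : ℕ}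

omit [Fintype P] [Fintype L] in
theorem gqc_offline {x : P} (y : Far I x) {m : L} (hm : I y.1 m) : ¬ I x m :=
  fun hx => y.2 ⟨m, hx, hm⟩

theorem gqc_Trefl (h : Q I q) (x : P) (a : Dir I x) (y : Far I x) : TT I x a y y := by
  obtain ⟨m, u, h1, h2, h3, -⟩ := far_line h a y
  exact ⟨u, h3, ⟨m, h1, h2⟩, ⟨m, h1, h2⟩⟩

theorem gqc_Tsymm (x : P) (a : Dir I x) (y z : Far I x) (hyz : TT I x a y z) : TT I x a z y := by
  obtain ⟨u, hu, h1, h2⟩ := hyz
  exact ⟨u, hu, h2, h1⟩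

theorem gqc_Ttrans (h : Q I q) (x : P) (a : Dir I x) (y z w : Far I x) (hyz : TT I x a y z)
    (hzw : TT I x a z w) : TT I x a y w := by
  obtain ⟨u, hu, h1, h2⟩ := hyz
  obtain ⟨v, hv, h3, h4⟩ := hzw
  have huv : u = v := h.tri (far_off a z) hu hv h2 h3
  subst huv
  exact ⟨u, hu, h1, h4⟩

theorem gqc_ET (x : P) (a : Dir I x) (y z : Far I x) (hyz : EE I x a y z) : TT I x a y z := by
  obtain ⟨m, hy, hz, u, hum, hua⟩ := hyz
  exact ⟨u, hua, ⟨m, hy, hum⟩, ⟨m, hz, hum⟩⟩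

theorem gqc_oneT (h : Q I q) (x : P) (a b : Dir I x) (y z : Far I x) (hab : a ≠ b) (h1 : EE I x b y z)
    (h2 : TT I x a y z) : y = z := by
  obtain ⟨m, hym, hzm, v, hvm, hvb⟩ := h1
  obtain ⟨u, hua, cy, cz⟩ := h2
  by_cases hum : I u m
  · exact gqa_one h x a b y z hab ⟨m, hym, hzm, u, hum, hua⟩ ⟨m, hym, hzm, v, hvm, hvb⟩
  · exact Subtype.ext (h.tri hum hym hzm cy.symm cz.symm)

theorem gqc_meetT (h : Q I q) (x : P) (a b : Dir I x) (y z : Far I x) (hab : a ≠ b) :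
    ∃ w, EE I x b y w ∧ TT I x a w z := by
  obtain ⟨k, u, hzk, huk, hua, hux⟩ := far_line h a z
  obtain ⟨m, v, hym, hvm, hvb, hvx⟩ := far_line h b y
  have hxm : ¬ I x m := gqc_offline y hym
  have hva : ¬ I v a.1 := fun hva => hab (Subtype.ext (h.un v x a.1 b.1 hvx hva a.2 hvb b.2))
  have hum : ¬ I u m := by
    intro hum
    have huv : u = v := h.tri hxm hum hvm ⟨a.1, a.2, hua⟩ ⟨b.1, b.2, hvb⟩
    exact hva (huv ▸ hua)
  obtain ⟨n, w, hun, hwn, hwm⟩ := h.ex u m hum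
  have hw : ¬ Col I x w := by
    intro hc
    have hwv : w = v := h.tri hxm hwm hvm hc ⟨b.1, b.2, hvb⟩
    subst hwv
    exact hux (h.tri hva hua a.2 ⟨n, hwn, hun⟩ ⟨b.1, hvb, b.2⟩)
  exact ⟨⟨w, hw⟩, ⟨m, hym, hwm, v, hvm, hvb⟩, ⟨u, hua, ⟨n, hwn, hun⟩, ⟨k, hzk, huk⟩⟩⟩

theorem gqc_ex (h : Q I q) (x : P) (a : Dir I x) (y z : Far I x) (h1 : ¬ TT I x a y z) :
    ∃ b w, b ≠ a ∧ EE I x a y w ∧ EE I x b w z := by
  obtain ⟨m, u, hym, hum, hua, hux⟩ := far_line h a y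
  have hxm : ¬ I x m := gqc_offline y hym
  have hzm : ¬ I z.1 m := fun hz => h1 ⟨u, hua, ⟨m, hym, hum⟩, ⟨m, hz, hum⟩⟩
  obtain ⟨n, w, hzn, hwn, hwm⟩ := h.ex z.1 m hzm
  have hwu : w ≠ u := by
    rintro rfl
    exact h1 ⟨w, hua, ⟨m, hym, hum⟩, ⟨n, hzn, hwn⟩⟩
  have hw : ¬ Col I x w := fun hc => hwu (h.tri hxm hwm hum hc ⟨a.1, a.2, hua⟩)
  have hxn : ¬ I x n := gqc_offline z hzn
  obtain ⟨b, t, hxb, htb, htn⟩ := h.ex x n hxn
  refine ⟨⟨b, hxb⟩, ⟨w, hw⟩, ?_, ⟨m, hym, hwm, u, hum, hua⟩, ⟨n, hwn, hzn, t, htn, htb⟩⟩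
  rintro rfl
  exact h1 (gqc_Ttrans h x _ y ⟨w, hw⟩ z ⟨u, hua, ⟨m, hym, hum⟩, ⟨m, hwm, hum⟩⟩
    ⟨t, htb, ⟨n, hwn, htn⟩, ⟨n, hzn, htn⟩⟩)

theorem gqc_tri (h : Q I q) (x : P) (y z : Far I x) (h1 : ∀ a, ¬ EE I x a y z) :
    (univ.filter (fun a => TT I x a y z)).card = q + 1 := by
  have hyz : ¬ Col I z.1 y.1 := by
    rintro ⟨m, hzm, hym⟩
    obtain ⟨a, t, hxa, hta, htm⟩ := h.ex x m (gqc_offline y hym)
    exact h1 ⟨a, hxa⟩ ⟨m, hym, hzm, t, htm, hta⟩
  have h2 := h.triad (x := x) (y := y.1) (z := z.1) y.2 (fun c => z.2 c.symm) hyz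
  rw [← h2]
  have key := Finset.card_mul_eq_card_mul (fun (a : Dir I x) (w : P) => I w a.1)
    (s := univ.filter (fun a => TT I x a y z))
    (t := univ.filter (fun w => (Col I w x ∧ Col I w y.1) ∧ Col I w z.1))
    (m := 1) (n := 1) ?_ ?_
  · simpa using key
  · intro a ha
    simp only [Finset.mem_filter, Finset.mem_univ, true_and] at ha
    obtain ⟨u, hua, cy, cz⟩ := ha
    rw [Finset.card_eq_one]
    refine ⟨u, ?_⟩
    ext w
    simp only [Finset.mem_bipartiteAbove, Finset.mem_filter, Finset.mem_univ, true_and,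
      Finset.mem_singleton]
    constructor
    · rintro ⟨⟨⟨-, h3⟩, -⟩, h4⟩
      exact h.tri (far_off a y) h4 hua h3.symm cy
    · rintro rfl
      exact ⟨⟨⟨⟨a.1, hua, a.2⟩, cy.symm⟩, cz.symm⟩, hua⟩
  · intro w hw
    simp only [Finset.mem_filter, Finset.mem_univ, true_and] at hw
    obtain ⟨⟨⟨l, hwl, hxl⟩, cy⟩, cz⟩ := hw
    have hwx : w ≠ x := by
      rintro rfl
      exact y.2 cy
    rw [Finset.card_eq_one]
    refine ⟨⟨l, hxl⟩, ?_⟩
    ext a
    simp only [Finset.mem_bipartiteBelow, Finset.mem_filter, Finset.mem_univ, true_and,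
      Finset.mem_singleton]
    constructor
    · rintro ⟨-, h4⟩
      exact Subtype.ext (h.un w x a.1 l hwx h4 a.2 hwl hxl)
    · rintro rfl
      exact ⟨⟨w, hwl, cy.symm, cz.symm⟩, hwl⟩

end Pool.H67.CR
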