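import Pool.Agent.H67.CR.Gqb
import Pool.Agent.H67.CR.Gqc

/-!
# The abstract structure of a coregular point
-/

set_option autoImplicit false

namespace Pool.H67.CR

open Finset Classical
open Pool.H63.GQ

variable {P L : Type*} [Fintype P] [Fintype L] {I : P → L → Prop} {q : ℕ}

theorem gq_co (h : Q I q) (x : P) (hreg : ∀ l, I x l → RegLine I q l) : Co (EE I x) (TT I x) q where
  refl := gqa_refl h x
  symm := gqa_symm x
  trans := gqa_trans h x
  cls := gqa_cls h x
  one := gqa_one h x
  notri := gqa_notri h x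
  comm := gqb_comm h x hreg
  dirs := gqa_dirs h x
  pts := gqa_pts h x
  Trefl := gqc_Trefl h x
  Tsymm := gqc_Tsymm x
  Ttrans := gqc_Ttrans h x
  ET := gqc_ET x
  meetT := gqc_meetT h x
  oneT := gqc_oneT h x
  ex := gqc_ex h x
  tri := gqc_tri h x

end Pool.H67.CR
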