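import Pool.Agent.H67.CR.Lyc

/-!
# Row Gra (MP_718a21_CR): the groups of symmetries (170 lines)

`Pres E i σ`: `∀ y, E i y (σ y)` and `∀ a ≠ i, ∀ y z, E a y z → E a (σ y) (σ z)`.
* `pres_step`: if `σ`, `σ'` are in `Pres E i`, agree at `y` and `E a y z`, `a ≠ i`, then they agree at `z`: `σ z`, `σ' z` are on the
 `i`-line of `z` and on the `a`-line of `σ y = σ' y`: `tr_un`.
* `pres_unique`: agreement at `y` implies agreement everywhere. For `z` not on the `i`-line of `y`: `two_ex` (with `y' = y`,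
 `h.refl`) gives `a, b ≠ i` and `w` with `E a y w`, `E b w z`: two steps. For `z` on the `i`-line of `y`: take `a ≠ i` and `w ≠ z` on the
 `a`-line of `z`; `w` is not on the `i`-line of `y` (`h.one`), so they agree at `w` and then at `z`.
* `pres_comp`, `pres_id`: clear. (For the first part of `comp`: `E i y (τ y)`, `E i (τ y) (σ (τ y))`.)
* `pres_i`: `E i y z → E i (σ y) (σ z)`.
* `Th h hq i : Subgroup (Equiv.Perm Ω)`, carrier `{σ | Pres E i σ}`. Inverse: let `E a y z`, `a ≠ i`, `u = σ⁻¹ y`. `E i u y` (from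
 `E i u (σ u)`), so there is `v` with `E i z v`, `E a u v` (`tr_ex` for the `i`-segment `(y, u)` and `E a y z`). Then
 `E a (σ u) (σ v)`, i.e. `E a y (σ v)`, and `E i v (σ v)`, so `E i z (σ v)`: `z = σ v` by `tr_un` (both on the `a`-line of `y`
 and the `i`-line of `z`). So `σ⁻¹ z = v` and `E a (σ⁻¹ y) (σ⁻¹ z)`.
* `th_orbit`: with `hσ` (existence, row Syb): for `E i y z` take `σ` with `σ y = z` and `σ'` with `σ' z = y`; `σ' ∘ σ` and `σ ∘ σ'` are in
 `Pres` and fix a point, so are the identity (`pres_unique` with `id`). So `σ` is a permutation.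
* `th_card`: fix `y`. The map `Th → {z | E i y z}`, `σ ↦ σ y` is injective (`pres_unique`) and surjective (`th_orbit`); the target has
 `q` elements (`h.cls`). (`Nat.card_congr (Equiv.ofBijective ..)`, `Nat.card_eq_fintype_card`.)
* `th_comm`: `σ ∈ Th i`, `τ ∈ Th j`, `i ≠ j`: `E i y (σ y)` gives `E i (τ y) (τ (σ y))` (`τ` preserves `i`), `E i (τ y) (σ (τ y))`, so
 `E i (σ (τ y)) (τ (σ y))`. In the same way `E j y (τ y)` gives `E j (σ y) (σ (τ y))`, `E j (σ y) (τ (σ y))`. `h.one`.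
* `th_inf`: `E i y (σ y)` and `E j y (σ y)`.
-/

set_option autoImplicit false

namespace Pool.H67.CR

open Finset Classical

variable {Ω J : Type*} [Fintype Ω] [Fintype J] {E T : J → Ω → Ω → Prop} {q : ℕ}

omit [Fintype Ω] in
theorem GRA_ai (σ : Equiv.Perm Ω) (y : Ω) : σ (σ⁻¹ y) = y := Equiv.apply_symm_apply σ y

omit [Fintype Ω] in
theorem GRA_ia (σ : Equiv.Perm Ω) (y : Ω) : σ⁻¹ (σ y) = y := Equiv.symm_apply_apply σ y

theorem pres_step (h : Co E T q) {i : J} {σ σ' : Ω → Ω} (h1 : Pres E i σ) (h2 : Pres E i σ') {a : J}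
    (ha : a ≠ i) {y z : Ω} (hyz : E a y z) (hy : σ y = σ' y) : σ z = σ' z := by
  refine tr_un h ha (h1.1 z) (h2.1 z) (h1.2 a ha y z hyz) ?_
  rw [hy]; exact h2.2 a ha y z hyz

theorem pres_unique (h : Co E T q) (hq : 3 ≤ q) {i : J} {σ σ' : Ω → Ω} (h1 : Pres E i σ)
    (h2 : Pres E i σ') {y : Ω} (hy : σ y = σ' y) : σ = σ' := by
  have key : ∀ z, ¬ E i y z → σ z = σ' z := by
    intro z hz
    obtain ⟨z', a, b, w, w', ha, hb, -, -, -, g1, g2, -, -⟩ := two_ex h hq hz (h.refl i y)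
    exact pres_step h h1 h2 hb g2 (pres_step h h1 h2 ha g1 hy)
  funext z
  by_cases hz : E i y z
  · have hJ : 1 < Fintype.card J := by rw [h.dirs]; nlinarith
    obtain ⟨a, ha⟩ := Fintype.exists_ne_of_one_lt_card hJ i
    obtain ⟨w, hw, hwz⟩ := Finset.exists_mem_ne
      (show 1 < (univ.filter (fun w => E a z w)).card by rw [h.cls]; omega) z
    have hw' : E a z w := (Finset.mem_filter.1 hw).2
    have hyw : ¬ E i y w := by
      intro hyw
      exact hwz (h.one a i z w ha hw' (h.trans i z y w (h.symm i y z hz) hyw)).symm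
    exact pres_step h h1 h2 ha (h.symm a z w hw') (key w hyw)
  · exact key z hz

theorem pres_comp (h : Co E T q) {i : J} {σ τ : Ω → Ω} (h1 : Pres E i σ) (h2 : Pres E i τ) :
    Pres E i (σ ∘ τ) :=
  ⟨fun y => h.trans i y (τ y) _ (h2.1 y) (h1.1 (τ y)),
    fun a ha y z hyz => h1.2 a ha _ _ (h2.2 a ha y z hyz)⟩

theorem pres_id (h : Co E T q) (i : J) : Pres E i (id : Ω → Ω) :=
  ⟨fun y => h.refl i y, fun _ _ _ _ hyz => hyz⟩

theorem pres_inv (h : Co E T q) {i : J} {σ : Equiv.Perm Ω} (h1 : Pres E i ⇑σ) :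
    Pres E i ⇑(σ⁻¹) := by
  have h0 : ∀ y, E i (σ⁻¹ y) y := fun y => by
    have := h1.1 (σ⁻¹ y)
    rwa [GRA_ai] at this
  refine ⟨fun y => h.symm i _ _ (h0 y), fun a ha y z hyz => ?_⟩
  obtain ⟨v, hv1, hv2⟩ := tr_ex h (h.symm i _ _ (h0 y)) hyz
  have h3 := h1.2 a ha _ _ hv2
  rw [GRA_ai] at h3
  have h4 : z = σ v := tr_un h ha (h.refl i z) (h.trans i z v (σ v) hv1 (h1.1 v)) hyz h3
  have h5 : σ⁻¹ z = v := by rw [h4, GRA_ia]
  rw [h5]
  exact hv2

/-- the group of the symmetries in direction `i` -/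
def Th (h : Co E T q) (i : J) : Subgroup (Equiv.Perm Ω) where
  carrier := {σ | Pres E i ⇑σ}
  mul_mem' := by
    intro σ τ h1 h2
    change Pres E i (⇑σ ∘ ⇑τ)
    exact pres_comp h h1 h2
  one_mem' := pres_id h i
  inv_mem' := by
    intro σ h1
    exact pres_inv h h1

theorem mem_Th (h : Co E T q) {i : J} {σ : Equiv.Perm Ω} : σ ∈ Th h i ↔ Pres E i ⇑σ := Iff.rfl

theorem th_orbit (h : Co E T q) (hq : 3 ≤ q)
    (hσ : ∀ i y0 y0', E i y0 y0' → ∃ σ : Ω → Ω, σ y0 = y0' ∧ Pres E i σ) {i : J} {y z : Ω} (hyz : E i y z) :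
    ∃ σ ∈ Th h i, σ y = z := by
  obtain ⟨σ, hs, h1⟩ := hσ i y z hyz
  obtain ⟨σ', hs', h2⟩ := hσ i z y (h.symm i y z hyz)
  have e1 : σ' ∘ σ = id := pres_unique h hq (pres_comp h h2 h1) (pres_id h i) (y := y)
    (by show σ' (σ y) = y; rw [hs, hs'])
  have e2 : σ ∘ σ' = id := pres_unique h hq (pres_comp h h1 h2) (pres_id h i) (y := z)
    (by show σ (σ' z) = z; rw [hs', hs])
  exact ⟨⟨σ, σ', fun x => congrFun e1 x, fun x => congrFun e2 x⟩, h1, hs⟩

theorem th_card (h : Co E T q) (hq : 3 ≤ q)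
    (hσ : ∀ i y0 y0', E i y0 y0' → ∃ σ : Ω → Ω, σ y0 = y0' ∧ Pres E i σ) (i : J) :
    Nat.card (Th h i) = q := by
  have hΩ : 0 < Fintype.card Ω := by rw [h.pts]; positivity
  obtain ⟨y⟩ := Fintype.card_pos_iff.1 hΩ
  let f : Th h i → {z // E i y z} := fun σ => ⟨σ.1 y, σ.2.1 y⟩
  have hf : Function.Bijective f := by
    constructor
    · intro σ τ hst
      have h1 : σ.1 y = τ.1 y := congrArg Subtype.val hst
      exact Subtype.ext (Equiv.coe_fn_injective (pres_unique h hq σ.2 τ.2 h1))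
    · rintro ⟨z, hz⟩
      obtain ⟨σ, h1, h2⟩ := th_orbit h hq hσ hz
      exact ⟨⟨σ, h1⟩, Subtype.ext h2⟩
  rw [Nat.card_congr (Equiv.ofBijective f hf), Nat.card_eq_fintype_card, Fintype.card_subtype]
  exact h.cls i y

theorem th_comm (h : Co E T q) {i j : J} (hij : i ≠ j) {σ τ : Equiv.Perm Ω} (h1 : σ ∈ Th h i)
    (h2 : τ ∈ Th h j) : σ * τ = τ * σ := by
  ext y
  show σ (τ y) = τ (σ y)
  have a1 : E i (τ y) (τ (σ y)) := h2.2 i hij y (σ y) (h1.1 y)
  have a2 : E i (τ y) (σ (τ y)) := h1.1 (τ y)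
  have b1 : E j (σ y) (σ (τ y)) := h1.2 j hij.symm y (τ y) (h2.1 y)
  have b2 : E j (σ y) (τ (σ y)) := h2.1 (σ y)
  exact h.one i j _ _ hij (h.trans i _ _ _ (h.symm i _ _ a2) a1)
    (h.trans j _ _ _ (h.symm j _ _ b1) b2)

theorem th_inf (h : Co E T q) {i j : J} (hij : i ≠ j) {σ : Equiv.Perm Ω} (h1 : σ ∈ Th h i)
    (h2 : σ ∈ Th h j) : σ = 1 := by
  ext y
  exact (h.one i j _ _ hij (h1.1 y) (h2.1 y)).symm

end Pool.H67.CR
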