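import Pool.Agent.H67.CR.Lthr

/-!
# Row Lfou (MP_718a21_CR): reduction to eigenfunctions (100 lines)

`l4_step`: by induction on the finite set `S` of processed directions (`Finset.induction_on` for a set `R` disjoint from
or arbitrary, `S = K ∪ R`): there are `D ⊇ K` and `g ≠ 0` with `∑ g = 0`, `Inv E D g`, `∀ d ∈ R, d ∉ D → Av d g = 0`, and
`∑ Z g = ∑ Z f` for all `Z` with `Clo E D Z`.
Start `R = ∅`: `D = K`, `g = f`. Step with a new direction `e`: if `e ∈ D` or `Av e g = 0`: the same `D`, `g`. Otherwise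
`D' = insert e D`, `g' = Av e g ≠ 0`: the sum is that of `g` (`av_sum` with `Z = univ`), invariance under `D` by `av_inv`,
under `e` by `av_line`; for `d ∈ R`, `d ∉ D'`: `Av d (Av e g) = Av e (Av d g) = Av e 0 = 0` (`av_comm`, `av_zero`); for `Z`
closed under `D'`: `∑ Z g' = ∑ Z g` (`av_sum`) `= ∑ Z f` (`Clo.mono`).
`l4`: take `R = univ`, `l3` gives `D.card = q + 1`.
`l4_zero`: if `f ≠ 0`, `l4` gives `D ⊇ K` with `q + 1 = D.card ≥ K.card ≥ q + 2`.
-/

set_option autoImplicit false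

namespace Pool.H67.CR

open Finset Classical

variable {Ω J : Type*} [Fintype Ω] [Fintype J] {E T : J → Ω → Ω → Prop} {q : ℕ}

theorem l4_step (h : Co E T q) (hq : 2 ≤ q) (K : Finset J) (f : Ω → ℚ) (hf : f ≠ 0)
    (hs : ∑ y, f y = 0) (h1 : Inv E K f) (R : Finset J) :
    ∃ D : Finset J, K ⊆ D ∧ ∃ g : Ω → ℚ, g ≠ 0 ∧ ∑ y, g y = 0 ∧ Inv E D g ∧
      (∀ d ∈ R, d ∉ D → Av E q d g = 0) ∧ ∀ Z, Clo E D Z → ∑ y ∈ Z, g y = ∑ y ∈ Z, f y := by
  induction R using Finset.induction_on with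
  | empty =>
    exact ⟨K, Subset.refl _, f, hf, hs, h1, fun d hd => absurd hd (Finset.notMem_empty d),
      fun Z _ => rfl⟩
  | insert e R he ih =>
    obtain ⟨D, hKD, g, hg, hgs, hgD, hgR, hgZ⟩ := ih
    by_cases hcase : e ∈ D ∨ Av E q e g = 0
    · refine ⟨D, hKD, g, hg, hgs, hgD, ?_, hgZ⟩
      intro d hd hdD
      rcases Finset.mem_insert.1 hd with rfl | hd
      · rcases hcase with h2 | h2
        · exact absurd h2 hdD
        · exact h2
      · exact hgR d hd hdD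
    · push Not at hcase
      obtain ⟨heD, hne⟩ := hcase
      refine ⟨insert e D, hKD.trans (Finset.subset_insert e D), Av E q e g, hne, ?_, ?_, ?_, ?_⟩
      · rw [av_sum h hq e g univ (fun _ _ _ _ _ _ => mem_univ _)]
        exact hgs
      · intro a ha y z hyz
        rcases Finset.mem_insert.1 ha with rfl | ha
        · exact av_line h a g hyz
        · exact av_inv h hq hgD e a ha y z hyz
      · intro d hd hdD
        rw [Finset.mem_insert, not_or] at hdD
        rcases Finset.mem_insert.1 hd with rfl | hd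
        · exact absurd rfl hdD.1
        · rw [av_comm h d e g, hgR d hd hdD.2, av_zero]
      · intro Z hZ
        have hZe : Clo E {e} Z := hZ.mono (by
          intro a ha
          rw [Finset.mem_singleton] at ha
          rw [ha]
          exact Finset.mem_insert_self _ _)
        rw [av_sum h hq e g Z hZe]
        exact hgZ Z (hZ.mono (Finset.subset_insert e D))

theorem l4 (h : Co E T q) (hq : 2 ≤ q) (K : Finset J) (hK : 2 ≤ K.card) (f : Ω → ℚ) (hf : f ≠ 0)
    (hs : ∑ y, f y = 0) (h1 : Inv E K f) :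
    ∃ D : Finset J, K ⊆ D ∧ Fam E q D ∧ ∃ g : Ω → ℚ, g ≠ 0 ∧ ∑ y, g y = 0 ∧ Inv E D g ∧
      ∀ Z, Clo E D Z → ∑ y ∈ Z, g y = ∑ y ∈ Z, f y := by
  obtain ⟨D, hKD, g, hg, hgs, hgD, hgR, hgZ⟩ := l4_step h hq K f hf hs h1 univ
  have h2 : D.card = q + 1 :=
    l3 h hq D (hK.trans (Finset.card_le_card hKD)) g hg hgs hgD fun d hd => hgR d (mem_univ d) hd
  exact ⟨D, hKD, ⟨h2, g, hg, hgs, hgD⟩, g, hg, hgs, hgD, hgZ⟩

theorem l4_zero (h : Co E T q) (hq : 2 ≤ q) (K : Finset J) (hK : q + 2 ≤ K.card) (f : Ω → ℚ)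
    (hs : ∑ y, f y = 0) (h1 : Inv E K f) : f = 0 := by
  by_contra hf
  obtain ⟨D, hKD, hD, -⟩ := l4 h hq K (by omega) f hf hs h1
  have h2 := Finset.card_le_card hKD
  have h3 := hD.1
  omega

end Pool.H67.CR
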