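import Pool.Agent.H67.CR.Ltwo

/-!
# Row Lthr (MP_718a21_CR): eigenfunctions have q + 1 directions (90 lines)

`l3_T`: if `f` has sum zero and is constant on the `e`-lines, then its sum over a class of `T d` is zero for `d ≠ e`:
`q * ∑ z with T d y0 z, f z = ∑ z with T d y0 z, ∑ w with E e z w, f w = ∑ w, f w * #{z | T d y0 z ∧ E e z w} = ∑ w, f w`,
because the number is one: exists by `h.meetT d e w y0`, unique by `h.oneT d e`.
`l3`: choose `y` with `f y ≠ 0`, `d ∈ D`, `e ∈ D` with `e ≠ d`. In `l2 h hq d y f`: for all `p`,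
`∑ a, ∑ z with E a p z, f z = ∑ a, q * Av a f p = q * D.card * f p` (`Av a f = f` for `a ∈ D` by `av_of_inv`, `= 0` otherwise);
`f p = f y` on the line, so the first sum is `q * (q * D.card * f y)`; the `T`-sum is `0` by `l3_T`; the right side is
`0 + (q^2 + q) * (q * f y)`. Divide by `q^2 * f y`: `D.card = q + 1`.
-/

set_option autoImplicit false

namespace Pool.H67.CR

open Finset Classical

variable {Ω J : Type*} [Fintype Ω] [Fintype J] {E T : J → Ω → Ω → Prop} {q : ℕ}

theorem Lthr_line (h : Co E T q) (e : J) (f : Ω → ℚ) (hf : ∀ y z, E e y z → f y = f z) (z : Ω) :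
    ∑ w ∈ univ.filter (fun w => E e z w), f w = q * f z := by
  have h1 : ∑ w ∈ univ.filter (fun w => E e z w), f w =
      ∑ w ∈ univ.filter (fun w => E e z w), f z := by
    refine Finset.sum_congr rfl fun w hw => ?_
    exact (hf z w (Finset.mem_filter.1 hw).2).symm
  rw [h1, Finset.sum_const, h.cls, nsmul_eq_mul]

theorem l3_T (h : Co E T q) (hq : 2 ≤ q) (d e : J) (hde : d ≠ e) (f : Ω → ℚ) (hs : ∑ y, f y = 0)
    (hf : ∀ y z, E e y z → f y = f z) (y0 : Ω) : ∑ z ∈ univ.filter (fun z => T d y0 z), f z = 0 := by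
  have hq0 : (q : ℚ) ≠ 0 := h.qpos hq
  have hone : ∀ w, ((univ.filter (fun z => T d y0 z)).filter (fun z => E e z w)).card = 1 := by
    intro w
    obtain ⟨v, hv1, hv2⟩ := h.meetT d e w y0 hde
    rw [Finset.card_eq_one]
    refine ⟨v, ?_⟩
    ext z
    simp only [mem_filter, mem_univ, true_and, mem_singleton]
    constructor
    · rintro ⟨hz1, hz2⟩
      exact h.oneT d e z v hde (h.trans _ _ _ _ hz2 hv1)
        (h.Ttrans _ _ _ _ (h.Tsymm _ _ _ hz1) (h.Tsymm _ _ _ hv2))
    · rintro rfl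
      exact ⟨h.Tsymm _ _ _ hv2, h.symm _ _ _ hv1⟩
  have h1 : (q : ℚ) * ∑ z ∈ univ.filter (fun z => T d y0 z), f z =
      ∑ z ∈ univ.filter (fun z => T d y0 z), ∑ w, (if E e z w then f w else 0) := by
    rw [Finset.mul_sum]
    refine Finset.sum_congr rfl fun z _ => ?_
    rw [← Finset.sum_filter, Lthr_line h e f hf z]
  have h2 : ∀ w, ∑ z ∈ univ.filter (fun z => T d y0 z), (if E e z w then f w else 0) = f w := by
    intro w
    rw [← Finset.sum_filter, Finset.sum_const, hone w, one_smul]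
  rw [Finset.sum_comm, Finset.sum_congr rfl (fun w _ => h2 w), hs] at h1
  rcases mul_eq_zero.1 h1 with h3 | h3
  · exact absurd h3 hq0
  · exact h3

theorem l3 (h : Co E T q) (hq : 2 ≤ q) (D : Finset J) (hD : 2 ≤ D.card) (f : Ω → ℚ) (hf : f ≠ 0)
    (hs : ∑ y, f y = 0) (h1 : Inv E D f) (h2 : ∀ d, d ∉ D → Av E q d f = 0) : D.card = q + 1 := by
  have hq0 : (q : ℚ) ≠ 0 := h.qpos hq
  obtain ⟨y, hy⟩ := Function.ne_iff.1 hf
  rw [Pi.zero_apply] at hy
  obtain ⟨d, hd, e, he, hde⟩ := Finset.one_lt_card.1 (by omega : 1 < D.card)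
  have k1 := l2 h hq d y f
  rw [l3_T h hq d e hde f hs (h1 e he) y, hs, add_zero, zero_add, Lthr_line h d f (h1 d hd) y] at k1
  have k2 : ∀ p, ∑ a, ∑ z ∈ univ.filter (fun z => E a p z), f z = D.card * (q * f p) := by
    intro p
    have k3 : ∀ a, ∑ z ∈ univ.filter (fun z => E a p z), f z = if a ∈ D then (q : ℚ) * f p else 0 := by
      intro a
      by_cases ha : a ∈ D
      · rw [if_pos ha, Lthr_line h a f (h1 a ha) p]
      · rw [if_neg ha]
        have k4 := congrFun (h2 a ha) p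
        unfold Av at k4
        rw [Pi.zero_apply, div_eq_zero_iff, or_iff_left hq0] at k4
        exact k4
    rw [Finset.sum_congr rfl (fun a _ => k3 a), Finset.sum_ite_mem, Finset.univ_inter,
      Finset.sum_const, nsmul_eq_mul]
  have k5 : ∑ p ∈ univ.filter (fun p => E d y p), ∑ a, ∑ z ∈ univ.filter (fun z => E a p z), f z =
      q * (D.card * (q * f y)) := by
    rw [Finset.sum_congr rfl (fun p hp => (k2 p).trans (by
      rw [← h1 d hd y p (Finset.mem_filter.1 hp).2])), Finset.sum_const, h.cls, nsmul_eq_mul]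
  rw [k5] at k1
  have k6 : ((D.card : ℚ) - (q + 1)) * (q * q * f y) = 0 := by
    linear_combination k1
  rcases mul_eq_zero.1 k6 with k7 | k7
  · have k8 : (D.card : ℚ) = ((q + 1 : ℕ) : ℚ) := by push_cast; linarith
    exact_mod_cast k8
  · exfalso
    rcases mul_eq_zero.1 k7 with k8 | k8
    · exact hq0 (mul_self_eq_zero.1 k8)
    · exact hy k8

end Pool.H67.CR
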