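import Pool.Agent.H67.CR.Ava

/-!
# Row Ltwo (MP_718a21_CR): lines against points (130 lines)

`l2_count`: fix a `d`-line (through `y0`) and `z`. The number of pairs `(p, a)` with `E d y0 p` and `E a p z`, plus one if
`T d y0 z`, is `1`, plus `q^2 + q` if `E d y0 z`.
Proof. Case `E d y0 z`. Then `T d y0 z` (`h.ET`). For `p = z`: all the `a` (`h.refl`): `card J = q^2 + 1`. For `p ≠ z` on
 the line (`q - 1` such `p`): `E a p z` iff `a = d` (`h.one`): `1` each. Sum: `q^2 + 1 + (q - 1) + 1 = 1 + q^2 + q`.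
Case not `E d y0 z` but `T d y0 z`: no pair: if `E d y0 p`, `E a p z`: `a ≠ d` (else `E d y0 z` by `h.trans`), and
 `T d p z` (`ET`, `Ttrans`, `Tsymm`), so `p = z` by `h.oneT`, so `E d y0 z`, contradiction. Sum `0 + 1 = 1`.
Case not `T d y0 z`: by `h.ex` there is a pair `(w, b)`, `b ≠ d`. It is the only one: let `(p, a)`, `(p', a')` be two
 pairs. `a ≠ d`, `a' ≠ d` (else `E d y0 z`), `p ≠ z ≠ p'`. If `p ≠ p'`: `E d p p'`; if `a = a'`, `E a p p'`
 contradicts `h.one`; if `a ≠ a'`, `h.notri` for `p, p', z` (directions `d, a', a`). So `p = p'`, and then `a = a'` by `h.one`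
 since `p ≠ z`. Sum: exactly one `p` has exactly one `a`: `1`.
`l2`: `∑ p, ∑ a, ∑ z with E a p z, f z = ∑ z, (number of pairs) f z`; `∑ z with T d y0 z, f z = ∑ z, (if T d y0 z then 1 else 0) * f z`.
-/

set_option autoImplicit false

namespace Pool.H67.CR

open Finset Classical

variable {Ω J : Type*} [Fintype Ω] [Fintype J] {E T : J → Ω → Ω → Prop} {q : ℕ}

theorem Ltwo_E (h : Co E T q) (hq : 2 ≤ q) (d : J) (y0 z : Ω) (hz : E d y0 z) :
    ∑ p ∈ univ.filter (fun p => E d y0 p), (univ.filter (fun a => E a p z)).card = q ^ 2 + q := by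
  have hzm : z ∈ univ.filter (fun p => E d y0 p) := by simp [hz]
  rw [← Finset.add_sum_erase _ _ hzm]
  have h1 : (univ.filter (fun a => E a z z)).card = q ^ 2 + 1 := by
    have : univ.filter (fun a => E a z z) = (univ : Finset J) := by
      ext a
      simp [h.refl a z]
    rw [this, card_univ, h.dirs]
  have h2 : ∑ p ∈ (univ.filter (fun p => E d y0 p)).erase z, (univ.filter (fun a => E a p z)).card =
      ∑ p ∈ (univ.filter (fun p => E d y0 p)).erase z, 1 := by
    refine sum_congr rfl fun p hp => ?_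
    simp only [mem_erase, mem_filter, mem_univ, true_and] at hp
    obtain ⟨hpz, hp⟩ := hp
    rw [card_eq_one]
    refine ⟨d, ?_⟩
    have hdp : E d p z := h.trans d p y0 z (h.symm d y0 p hp) hz
    ext a
    simp only [mem_filter, mem_univ, true_and, mem_singleton]
    constructor
    · intro ha
      by_contra hne
      exact hpz (h.one a d p z hne ha hdp)
    · rintro rfl
      exact hdp
  rw [h1, h2, sum_const, smul_eq_mul, mul_one, card_erase_of_mem hzm, h.cls]
  omega

theorem Ltwo_T (h : Co E T q) (d : J) (y0 z : Ω) (hz : ¬ E d y0 z) (hT : T d y0 z) :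
    ∑ p ∈ univ.filter (fun p => E d y0 p), (univ.filter (fun a => E a p z)).card = 0 := by
  refine sum_eq_zero fun p hp => ?_
  simp only [mem_filter, mem_univ, true_and] at hp
  rw [card_eq_zero, filter_eq_empty_iff]
  intro a _ ha
  have had : a ≠ d := by
    rintro rfl
    exact hz (h.trans a y0 p z hp ha)
  have hTp : T d p z := h.Ttrans d p y0 z (h.Tsymm d y0 p (h.ET d y0 p hp)) hT
  have hpz : p = z := h.oneT d a p z (Ne.symm had) ha hTp
  rw [hpz] at hp
  exact hz hp

theorem Ltwo_N (h : Co E T q) (d : J) (y0 z : Ω) (hz : ¬ E d y0 z) (hT : ¬ T d y0 z) :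
    ∑ p ∈ univ.filter (fun p => E d y0 p), (univ.filter (fun a => E a p z)).card = 1 := by
  obtain ⟨b, w, hb, hw, hbw⟩ := h.ex d y0 z hT
  have hne : ∀ p a, E d y0 p → E a p z → a ≠ d := by
    intro p a hp ha e
    rw [e] at ha
    exact hz (h.trans d y0 p z hp ha)
  have hpz : ∀ p, E d y0 p → p ≠ z := by
    intro p hp e
    rw [e] at hp
    exact hz hp
  have huniq : ∀ p a, E d y0 p → E a p z → p = w := by
    intro p a hp ha
    by_contra hpw
    have hd : E d p w := h.trans d p y0 w (h.symm d y0 p hp) hw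
    have had := hne p a hp ha
    by_cases hab : a = b
    · have ha' : E a p w := by
        rw [← hab] at hbw
        exact h.trans a p z w ha (h.symm a w z hbw)
      exact hpw (h.one a d p w had ha' hd)
    · exact hpw (h.notri d b a p w z (Ne.symm hb) (Ne.symm hab) (Ne.symm had) hd hbw (h.symm a p z ha))
  have hwm : w ∈ univ.filter (fun p => E d y0 p) := by simp [hw]
  rw [sum_eq_single_of_mem w hwm]
  · rw [card_eq_one]
    refine ⟨b, ?_⟩
    ext a
    simp only [mem_filter, mem_univ, true_and, mem_singleton]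
    constructor
    · intro ha
      by_contra hab
      exact hpz w hw (h.one a b w z hab ha hbw)
    · rintro rfl
      exact hbw
  · intro p hp hpw
    simp only [mem_filter, mem_univ, true_and] at hp
    rw [card_eq_zero, filter_eq_empty_iff]
    intro a _ ha
    exact hpw (huniq p a hp ha)

theorem l2_count (h : Co E T q) (hq : 2 ≤ q) (d : J) (y0 z : Ω) :
    ∑ p ∈ univ.filter (fun p => E d y0 p), (univ.filter (fun a => E a p z)).card +
      (if T d y0 z then 1 else 0) = 1 + (if E d y0 z then q ^ 2 + q else 0) := by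
  by_cases hz : E d y0 z
  · rw [Ltwo_E h hq d y0 z hz, if_pos hz, if_pos (h.ET d y0 z hz)]
    omega
  · by_cases hT : T d y0 z
    · rw [Ltwo_T h d y0 z hz hT, if_neg hz, if_pos hT]
    · rw [Ltwo_N h d y0 z hz hT, if_neg hz, if_neg hT]

theorem l2 (h : Co E T q) (hq : 2 ≤ q) (d : J) (y0 : Ω) (f : Ω → ℚ) :
    ∑ p ∈ univ.filter (fun p => E d y0 p), ∑ a, ∑ z ∈ univ.filter (fun z => E a p z), f z +
      ∑ z ∈ univ.filter (fun z => T d y0 z), f z =
    ∑ z, f z + ((q : ℚ) ^ 2 + q) * ∑ z ∈ univ.filter (fun z => E d y0 z), f z := by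
  have h1 : ∀ p, ∑ a, ∑ z ∈ univ.filter (fun z => E a p z), f z =
      ∑ z, ((univ.filter (fun a => E a p z)).card : ℚ) * f z := by
    intro p
    have h2 : ∀ a, ∑ z ∈ univ.filter (fun z => E a p z), f z = ∑ z, if E a p z then f z else 0 := by
      intro a
      rw [sum_filter]
    simp only [h2]
    rw [sum_comm]
    refine sum_congr rfl fun z _ => ?_
    rw [← sum_filter, sum_const, nsmul_eq_mul]
  simp only [h1]
  rw [sum_comm, sum_filter (fun z => T d y0 z), sum_filter (fun z => E d y0 z), mul_sum,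
    ← sum_add_distrib, ← sum_add_distrib]
  refine sum_congr rfl fun z _ => ?_
  have h3 := l2_count h hq d y0 z
  have h4 : (∑ p ∈ univ.filter (fun p => E d y0 p), ((univ.filter (fun a => E a p z)).card : ℚ)) +
      (if T d y0 z then 1 else 0) = 1 + (if E d y0 z then (q : ℚ) ^ 2 + q else 0) := by
    exact_mod_cast h3
  rw [← sum_mul]
  have h5 : (if T d y0 z then f z else 0) = (if T d y0 z then (1 : ℚ) else 0) * f z := by
    split_ifs <;> ring
  have h6 : ((q : ℚ) ^ 2 + q) * (if E d y0 z then f z else 0) =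
      (if E d y0 z then (q : ℚ) ^ 2 + q else 0) * f z := by
    split_ifs <;> ring
  rw [h5, h6, ← add_mul, h4]
  ring

end Pool.H67.CR
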