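import Pool.Agent.H67.CR.Tra

/-!
# Row Lyc (MP_718a21_CR): two-step transports between collinear points (110 lines)

* `lyc_dir`: `E c y z`, `c ≠ i`, `y ≠ z`, and `Two E i y y' z z'` ⇒ `E c y' z'`. Proof: `y ≡_a w ≡_b z`, with segments
 `(w, w')`, `(z, z')`, `E a y' w'`, `E b w' z'`. If `w = y`: then `E b y z`, `y ≠ z`: `b = c`; `w' = y'` (`E a y' w'`, `E i y w'`,
 `E i y y'`: both on an `i`- and an `a`-line, `h.one`), so `E c y' z'`. If `w = z`: similarly `a = c`, `w' = z'`. Otherwise `y, w, z` different.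
 `a, b, c` are not pairwise different by `h.notri`. `a = b`: `E a y z` so `a = c`: `E c y' w'`, `E c w' z'`. `a = c ≠ b`:
 `E c w z` and `E b w z`: `w = z`, contradiction. `b = c ≠ a`: `E c y w`, `E a y w`: `y = w`, contradiction.
* `lyc`: if `E c y z` for some `c`, and not `E i y z`: `c ≠ i`, `y ≠ z`; both `z'` and `z''` satisfy `E c y' z'`, `E i z z'`:
 `tr_un`.
* `two_ex`: if not `E i y z` and `E i y y'`, a two-step transport exists (`q ≥ 3`). If `E c y z` (`c ≠ i`): take `w = y`, `w' = y'`,
 `a = b = c` and `z'` from `tr_ex`. If `y`, `z` are on no common line: the set of the `a` with `T a y z` has `q + 1` elements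
 (`h.tri`); by `h.ex`, every other `a` gives `b ≠ a`, `w` with `E a y w`, `E b w z`. There are `q^2 + 1 - (q + 1) ≥ 6` of
 them; we want `a ≠ i` and `b ≠ i`. If two different `a1, a2 ≠ i` had `b1 = b2 = i`: `two_paths` would give `a1 = a2` or
 `a2 = b1 = i` or `b1 ≠ b2`: contradiction. So at most one `a ≠ i` is bad. (Take three different directions outside the
 set, at least two of them are not `i`.) Then `tr_ex` twice.
-/

set_option autoImplicit false

namespace Pool.H67.CR

open Finset Classical

variable {Ω J : Type*} [Fintype Ω] [Fintype J] {E T : J → Ω → Ω → Prop} {q : ℕ}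

theorem lyc_dir (h : Co E T q) {i c : J} (hci : c ≠ i) {y y' z z' : Ω} (hyz : E c y z) (hne : y ≠ z)
    (h1 : Two E i y y' z z') : E c y' z' := by
  have sy := fun {c : J} {u v : Ω} (k : E c u v) => h.symm c u v k
  have tr := fun {c : J} {u v t : Ω} (k : E c u v) (k' : E c v t) => h.trans c u v t k k'
  obtain ⟨a, b, w, w', hai, hbi, s1, s2, s3, p1, p2, t1, t2⟩ := h1
  by_cases hwy : w = y
  · rw [hwy] at p2 s2
    have hbc : b = c := by
      by_contra hbc
      exact hne (h.one b c y z hbc p2 hyz)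
    have hw' : y' = w' := h.one a i y' w' hai t1 (tr (sy s1) s2)
    rw [← hw', hbc] at t2
    exact t2
  · by_cases hwz : w = z
    · rw [hwz] at p1 s2
      have hac : a = c := by
        by_contra hac
        exact hne (h.one a c y z hac p1 hyz)
      have hw' : w' = z' := h.one b i w' z' hbi t2 (tr (sy s2) s3)
      rw [hw', hac] at t1
      exact t1
    · by_cases hab : a = b
      · rw [← hab] at p2 t2
        have hac : a = c := by
          by_contra hac
          exact hne (h.one a c y z hac (tr p1 p2) hyz)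
        rw [← hac]
        exact tr t1 t2
      · exfalso
        by_cases hac : a = c
        · rw [hac] at p1
          exact hwz (h.one c b w z (by rw [← hac]; exact hab) (tr (sy p1) hyz) p2)
        · by_cases hbc : b = c
          · rw [hbc] at p2
            exact hwy (h.one c a w y (by rw [← hbc]; exact Ne.symm hab) (tr p2 (sy hyz)) (sy p1))
          · exact hwy (h.notri a b c y w z hab hbc hac p1 p2 (sy hyz)).symm

theorem lyc (h : Co E T q) {i c : J} {y y' z z' z'' : Ω} (hyz : E c y z) (hi : ¬ E i y z)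
    (h1 : Two E i y y' z z') (h2 : Two E i y y' z z'') : z' = z'' := by
  have hci : c ≠ i := by
    rintro rfl
    exact hi hyz
  have hne : y ≠ z := by
    rintro rfl
    exact hi (h.refl i y)
  have e1 := lyc_dir h hci hyz hne h1
  have e2 := lyc_dir h hci hyz hne h2
  obtain ⟨_, _, _, _, _, _, _, _, s3, _⟩ := h1
  obtain ⟨_, _, _, _, _, _, _, _, s3', _⟩ := h2
  exact tr_un h hci s3 s3' e1 e2

theorem two_ex (h : Co E T q) (hq : 3 ≤ q) {i : J} {y y' z : Ω} (hi : ¬ E i y z) (hyy : E i y y') :
    ∃ z', Two E i y y' z z' := by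
  by_cases hc : ∃ c, E c y z
  · obtain ⟨c, hc⟩ := hc
    have hci : c ≠ i := by
      rintro rfl
      exact hi hc
    obtain ⟨z', h1, h2⟩ := tr_ex h hyy hc
    exact ⟨z', c, c, y, y', hci, hci, hyy, hyy, h1, h.refl c y, hc, h.refl c y', h2⟩
  · have hn : ∀ c, ¬ E c y z := fun c k => hc ⟨c, k⟩
    have hcard := h.tri y z hn
    have hcard2 : (univ.filter (fun a => ¬ T a y z)).card = q ^ 2 - q := by
      have h1 := Finset.card_filter_add_card_filter_not (s := (univ : Finset J)) (fun a => T a y z)
      rw [hcard, card_univ, h.dirs] at h1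
      omega
    have hcard3 : 1 < ((univ.filter (fun a => ¬ T a y z)).erase i).card := by
      have h1 := Finset.pred_card_le_card_erase (s := univ.filter (fun a => ¬ T a y z)) (a := i)
      rw [hcard2] at h1
      have h2 : 3 ≤ q ^ 2 - q := by
        have : 3 * q ≤ q ^ 2 := by nlinarith
        omega
      omega
    have key : ∃ a b w, a ≠ i ∧ b ≠ i ∧ E a y w ∧ E b w z := by
      by_contra hcon
      obtain ⟨a1, ha1, a2, ha2, h12⟩ := one_lt_card.1 hcard3
      simp only [mem_erase, mem_filter, mem_univ, true_and] at ha1 ha2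
      obtain ⟨b1, w1, _, e1, e2⟩ := h.ex a1 y z ha1.2
      obtain ⟨b2, w2, _, e3, e4⟩ := h.ex a2 y z ha2.2
      have hb1 : b1 = i := by
        by_contra hb
        exact hcon ⟨a1, b1, w1, ha1.1, hb, e1, e2⟩
      have hb2 : b2 = i := by
        by_contra hb
        exact hcon ⟨a2, b2, w2, ha2.1, hb, e3, e4⟩
      rcases two_paths h hn e1 e2 e3 e4 with ⟨k, _⟩ | ⟨k, _⟩ | ⟨_, _, _, _, _, k, _⟩
      · exact h12 k
      · exact ha2.1 (k.trans hb1)
      · exact k (hb1.trans hb2.symm)
    obtain ⟨a, b, w, hai, hbi, e1, e2⟩ := key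
    obtain ⟨w', s2, t1⟩ := tr_ex h hyy e1
    obtain ⟨z', s3, t2⟩ := tr_ex h s2 e2
    exact ⟨z', a, b, w, w', hai, hbi, hyy, s2, s3, e1, e2, t1, t2⟩

end Pool.H67.CR
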