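import Pool.Agent.H67.CR.Lyc

/-!
# Row Lyn (MP_718a21_CR): two-step transports are unique (160 lines)

Circles: `hc : Cir E q F`.
* `lyn_far`: `y`, `z` on no common line, two paths `y ≡_a w ≡_b z`, `y ≡_{a2} w2 ≡_{b2} z` with `a, b, a2, b2` all different
 (third case of `two_paths`) and `A` a circle with `a, b, a2 ∈ A`. Then `b2 ∈ A` (`lemV`: the closed path `z ≡_b w ≡_a y ≡_{a2} w2 ≡_{b2} z`).
 If `i ∉ A`, the transports along the two paths agree: `z'` and `z''` are both related to `y'` by `Rel E A`, and `E i z' z''`, so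
 `z' = z''` by `hc.once`.
* `lyn`: `y`, `z` on no common line, two transports `z'`, `z''` of `y'`. By `two_paths` three cases:
 (1) the same path: then the intermediate points agree (`tr_un`) and then `z' = z''` (`tr_un`).
 (2) `a2 = b`, `b2 = a`: `tr_cube` (`a ≠ b` as `y`, `z` are on no common line).
 (3) all different. Let `A` be the circle on `a, b, a2` (`hc.three`), `b2 ∈ A`. If `i ∉ A`: `lyn_far`. If `i ∈ A`: the
 number of directions is `q^2 + 1 > 2 (q + 1)` (`q ≥ 3`), so there is `a3 ∉ A` with not `T a3 y z` (`h.tri`, `hc.card`); `h.ex` gives `b3 ≠ a3`,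
 `w3` with `E a3 y w3`, `E b3 w3 z`. `a3 ≠ i`. Apply `two_paths` to (1st, 3rd): not the same (`a3 ≠ a`), not the second case
 (`a3 = b ∈ A` impossible), so all different. `b3 ∉ A`: else `lemV` with the circle `A ∋ a, b, b3` for the closed path
 `y ≡_a w ≡_b z ≡_{b3} w3 ≡_{a3} y` gives `a3 ∈ A`. So `b3 ≠ i`. Transport along the third path: `tr_ex` twice gives `w3'`, `z3'`.
 The circle `B` on `a, b, a3` does not contain `i`: otherwise `A` and `B` share `a, b, i` (`i ≠ a, b`), so `A = B ∋ a3`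
 (`hc.uniq`). So `z' = z3'` by `lyn_far`. In the same way `z'' = z3'` with the paths (2nd, 3rd) and the circle on `a2, b2, a3`.
* `two_unique`: combine with `lyc`.
-/

set_option autoImplicit false

namespace Pool.H67.CR

open Finset Classical

variable {Ω J : Type*} [Fintype Ω] [Fintype J] {E T : J → Ω → Ω → Prop} {q : ℕ}

theorem lyn_b2 (h : Co E T q) {F : Finset J → Prop} (hc : Cir E q F) {A : Finset J} (hA : F A)
    {a b a2 b2 : J} (ha : a ∈ A) (hb : b ∈ A) (ha2 : a2 ∈ A)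
    {y z w w2 : Ω} (hw2 : w2 ≠ z)
    (p1 : E a y w) (p2 : E b w z) (p3 : E a2 y w2) (p4 : E b2 w2 z) : b2 ∈ A :=
  lemV hc hA hb ha ha2 (h.symm _ _ _ p2) (h.symm _ _ _ p1) p3 p4 hw2

theorem lyn_far (h : Co E T q) {F : Finset J → Prop} (hc : Cir E q F) {A : Finset J} (hA : F A)
    {i a b a2 b2 : J} (hiA : i ∉ A) (ha : a ∈ A) (hb : b ∈ A) (ha2 : a2 ∈ A)
    {y y' z z' z'' w w' w2 w2' : Ω} (hw2 : w2 ≠ z)
    (p1 : E a y w) (p2 : E b w z) (p3 : E a2 y w2) (p4 : E b2 w2 z)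
    (t1 : E a y' w') (t2 : E b w' z') (t3 : E a2 y' w2') (t4 : E b2 w2' z'')
    (s1 : E i z z') (s2 : E i z z'') : z' = z'' := by
  have hb2 : b2 ∈ A := lyn_b2 h hc hA ha hb ha2 hw2 p1 p2 p3 p4
  have r1 : Rel E A y' z' := (Rel.of ha t1).trans (Rel.of hb t2)
  have r2 : Rel E A y' z'' := (Rel.of ha2 t3).trans (Rel.of hb2 t4)
  exact hc.once A hA i hiA z' z'' (h.trans _ _ _ _ (h.symm _ _ _ s1) s2) (r1.symm.trans r2)

theorem lyn (h : Co E T q) (hq : 3 ≤ q) {F : Finset J → Prop} (hc : Cir E q F) {i : J}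
    {y y' z z' z'' : Ω} (hn : ∀ c, ¬ E c y z) (h1 : Two E i y y' z z') (h2 : Two E i y y' z z'') :
    z' = z'' := by
  obtain ⟨a, b, w, w', hai, hbi, e1, e2, e3, p1, p2, p3, p4⟩ := h1
  obtain ⟨a2, b2, w2, w2', ha2i, hb2i, f1, f2, f3, q1, q2, q3, q4⟩ := h2
  have hw2z : w2 ≠ z := by
    rintro rfl
    exact hn a2 q1
  rcases two_paths h hn p1 p2 q1 q2 with ⟨rfl, rfl, rfl⟩ | ⟨rfl, rfl⟩ | ⟨hab, ha2b2, haa2, hab2, hba2, hbb2, hww2, hwy, hw2y⟩
  · have hw' : w' = w2' := tr_un h hai e2 f2 p3 q3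
    subst hw'
    exact tr_un h hbi e3 f3 p4 q4
  · have hab : b2 ≠ a2 := by
      rintro rfl
      exact hn _ (h.trans _ _ _ _ p1 p2)
    exact tr_cube h hai hbi hab p1 p2 q1 q2 e1 e2 f2 e3 f3 p3 p4 q3 q4
  · obtain ⟨A, hA, haA, hbA, ha2A⟩ := hc.three a b a2 hab hba2 haa2
    by_cases hiA : i ∈ A
    swap
    · exact lyn_far h hc hA hiA haA hbA ha2A hw2z p1 p2 q1 q2 p3 p4 q3 q4 e3 f3
    have hb2A : b2 ∈ A := lyn_b2 h hc hA haA hbA ha2A hw2z p1 p2 q1 q2
    obtain ⟨a3, ha3A, ha3T⟩ : ∃ a3, a3 ∉ A ∧ ¬ T a3 y z := by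
      by_contra hcon
      push Not at hcon
      have hsub : (univ : Finset J) ⊆ A ∪ univ.filter (fun a => T a y z) := by
        intro c _
        by_cases hcA : c ∈ A
        · exact Finset.mem_union_left _ hcA
        · exact Finset.mem_union_right _ (Finset.mem_filter.2 ⟨Finset.mem_univ _, hcon c hcA⟩)
      have h3 := Finset.card_le_card hsub
      have h4 := Finset.card_union_le A (univ.filter (fun a => T a y z))
      rw [h.tri y z hn, hc.card A hA] at h4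
      rw [Finset.card_univ, h.dirs] at h3
      nlinarith
    obtain ⟨b3, w3, hb3a3, g1, g2⟩ := h.ex a3 y z ha3T
    have ha3i : a3 ≠ i := fun hh => ha3A (hh ▸ hiA)
    have hw3z : w3 ≠ z := by
      rintro rfl
      exact hn a3 g1
    have hw3y : w3 ≠ y := by
      rintro rfl
      exact hn b3 g2
    have hb3A : b3 ∉ A := fun hb3 =>
      ha3A (lemV hc hA haA hbA hb3 p1 p2 (h.symm _ _ _ g2) (h.symm _ _ _ g1) hw3y)
    have hb3i : b3 ≠ i := fun hh => hb3A (hh ▸ hiA)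
    obtain ⟨w3', k1, k2⟩ := tr_ex h e1 g1
    obtain ⟨z3', k3, k4⟩ := tr_ex h k1 g2
    have haa3 : a ≠ a3 := fun hh => ha3A (hh ▸ haA)
    have hba3 : b ≠ a3 := fun hh => ha3A (hh ▸ hbA)
    have ha2a3 : a2 ≠ a3 := fun hh => ha3A (hh ▸ ha2A)
    have hb2a3 : b2 ≠ a3 := fun hh => ha3A (hh ▸ hb2A)
    obtain ⟨B, hB, haB, hbB, ha3B⟩ := hc.three a b a3 hab hba3 haa3
    have hiB : i ∉ B := fun hi =>
      ha3A ((hc.uniq A B hA hB a b i hab hbi hai haA hbA hiA haB hbB hi) ▸ ha3B)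
    have z1 : z' = z3' := lyn_far h hc hB hiB haB hbB ha3B hw3z p1 p2 g1 g2 p3 p4 k2 k4 e3 k3
    obtain ⟨B', hB', haB', hbB', ha3B'⟩ := hc.three a2 b2 a3 ha2b2 hb2a3 ha2a3
    have hiB' : i ∉ B' := fun hi =>
      ha3A ((hc.uniq A B' hA hB' a2 b2 i ha2b2 hb2i ha2i ha2A hb2A hiA haB' hbB' hi) ▸ ha3B')
    have z2 : z'' = z3' := lyn_far h hc hB' hiB' haB' hbB' ha3B' hw3z q1 q2 g1 g2 q3 q4 k2 k4 f3 k3
    rw [z1, z2]

theorem two_unique (h : Co E T q) (hq : 3 ≤ q) {F : Finset J → Prop} (hc : Cir E q F) {i : J}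
    {y y' z z' z'' : Ω} (hi : ¬ E i y z) (h1 : Two E i y y' z z') (h2 : Two E i y y' z z'') :
    z' = z'' := by
  by_cases hn : ∀ c, ¬ E c y z
  · exact lyn h hq hc hn h1 h2
  · push Not at hn
    obtain ⟨c, hcyz⟩ := hn
    exact lyc h hcyz hi h1 h2

end Pool.H67.CR
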