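import Pool.Agent.H67.CR.Sya

/-!
# Row Syb (MP_718a21_CR): construction of the symmetries (150 lines)

`syb`: for `E i y0 y0'` there is `σ` with `σ y0 = y0'` and `Pres E i σ`.
Proof. For `z` not on the `i`-line `N` of `y0` let `τ z` be the transport of `(y0, y0')` (`two_ex`, unique by `two_unique`). `E i z (τ z)`,
and by `sya` `E e (τ z) (τ w)` for `E e z w`, `e ≠ i`, `z, w ∉ N`.
For `z ∈ N` (`E i y0 z`): for a direction `a ≠ i` and `w ≠ z` with `E a z w` we have `w ∉ N` (else `E i z w`, `h.one`). Let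
`C z z'` say: `E i z z'` and for all `a ≠ i`, `w ≠ z` with `E a z w`: `E a z' (τ w)`. Claim: such a `z'` exists. Choose some `a0 ≠ i` and
`w0 ≠ z` on the `a0`-line of `z` (`h.cls`, `q ≥ 2`; `card J ≥ 2`), and `z'` with `E i z z'`, `E a0 (τ w0) z'` (`tr_ex`). Let `(a, w)` be
another pair. If `a = a0`: `E a w0 w`, so `E a (τ w0) (τ w)` if `w ≠ w0`, fine (`h.trans`). If `a ≠ a0`: `h.comm` for `w0 ≡_{a0} z ≡_a w` gives
`v` with `E a w0 v`, `E a0 v w`. `v ∉ N`: if `E i v z`: `h.notri` for `v, w0, z` with directions `a, a0, i` gives `v = w0`, so `E i w0 z`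
and `E a0 w0 z`: `w0 = z`, contradiction. So `E a (τ w0) (τ v)`, `E a0 (τ v) (τ w)`. Let `w'` with `E i w w'`, `E a z' w'` (`tr_ex`).
The cube lemma `tr_cube` for the points `w0 ≡_{a0} z ≡_a w`, `w0 ≡_a v ≡_{a0} w` with the segments starting at `(w0, τ w0)`:
`w' = τ w`. So `E a z' (τ w)`.
Define `σ z = τ z` off `N` and `σ z =` such a `z'` on `N`. `Pres`: for `E a y z`, `a ≠ i`: `y = z`: `h.refl`; both in `N`: `y = z`;
one in `N`: the condition `C`; none in `N`: `sya`. Finally `σ y0 = y0'`: take `a ≠ i`, `w ≠ y0` on the `a`-line of `y0`. `τ w` is the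
transport along this line (`lyc_dir`: `E a y0' (τ w)`), and `E a (σ y0) (τ w)`, `E i y0 (σ y0)`, `E i y0 y0'`: `tr_un`.
-/

set_option autoImplicit false

namespace Pool.H67.CR

open Finset Classical

variable {Ω J : Type*} [Fintype Ω] [Fintype J] {E T : J → Ω → Ω → Prop} {q : ℕ}

theorem syb (h : Co E T q) (hq : 4 ≤ q) {F : Finset J → Prop} (hc : Cir E q F) {i : J} {y0 y0' : Ω}
    (h0 : E i y0 y0') : ∃ σ : Ω → Ω, σ y0 = y0' ∧ Pres E i σ := by
  have sy := fun {c : J} {u v : Ω} (k : E c u v) => h.symm c u v k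
  have tr := fun {c : J} {u v t : Ω} (k : E c u v) (k' : E c v t) => h.trans c u v t k k'
  have h1 : ∀ z, ∃ z', ¬ E i y0 z → Two E i y0 y0' z z' := by
    intro z
    by_cases hz : E i y0 z
    · exact ⟨z, fun hn => absurd hz hn⟩
    · obtain ⟨z', hz'⟩ := two_ex h (by omega) hz h0
      exact ⟨z', fun _ => hz'⟩
  choose τ hτ using h1
  have hτi : ∀ z, ¬ E i y0 z → E i z (τ z) := by
    intro z hz
    obtain ⟨a, b, w, w', -, -, -, -, h5, -⟩ := hτ z hz
    exact h5
  have hτe : ∀ e, e ≠ i → ∀ z w, ¬ E i y0 z → ¬ E i y0 w → E e z w → E e (τ z) (τ w) :=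
    fun e he z w hz hw hzw => sya h hq hc he hz hw hzw (hτ z hz) (hτ w hw)
  have hoff : ∀ z, E i y0 z → ∀ a, a ≠ i → ∀ w, w ≠ z → E a z w → ¬ E i y0 w := by
    intro z hz a ha w hwz hzw hw
    exact hwz (h.one a i z w ha hzw (tr (sy hz) hw)).symm
  have hnb : ∀ a z, ∃ w, w ≠ z ∧ E a z w := by
    intro a z
    have h2 : 1 < (univ.filter (fun w => E a z w)).card := by
      rw [h.cls]
      omega
    obtain ⟨w, hw, hne⟩ := Finset.exists_mem_ne h2 z
    exact ⟨w, hne, (Finset.mem_filter.1 hw).2⟩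
  obtain ⟨a0, ha0⟩ : ∃ a0, a0 ≠ i := by
    apply Fintype.exists_ne_of_one_lt_card
    rw [h.dirs]
    nlinarith
  have hC : ∀ z, ∃ z', E i y0 z → E i z z' ∧ ∀ a, a ≠ i → ∀ w, w ≠ z → E a z w → E a z' (τ w) := by
    intro z
    by_cases hz : E i y0 z
    swap
    · exact ⟨z, fun hn => absurd hn hz⟩
    obtain ⟨w0, hw0, e0⟩ := hnb a0 z
    have n0 := hoff z hz a0 ha0 w0 hw0 e0
    obtain ⟨z', hz1, hz2⟩ := tr_ex h (hτi w0 n0) (sy e0)
    refine ⟨z', fun _ => ⟨hz1, ?_⟩⟩
    intro a ha w hw e1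
    have nw := hoff z hz a ha w hw e1
    by_cases haa : a = a0
    · subst haa
      exact tr (sy hz2) (hτe a ha w0 w n0 nw (tr (sy e0) e1))
    · obtain ⟨v, hv1, hv2⟩ := h.comm a0 a w0 z w (sy e0) e1
      have nv : ¬ E i y0 v := by
        intro hv
        have e2 : v = w0 := h.notri a a0 i v w0 z haa ha0 ha (sy hv1) (sy e0) (tr (sy hz) hv)
        rw [e2] at hv
        exact n0 hv
      obtain ⟨w', hw1, hw2⟩ := tr_ex h hz1 e1
      have e3 : w' = τ w := tr_cube h ha0 ha (Ne.symm haa) (sy e0) e1 hv1 hv2 (hτi w0 n0) hz1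
        (hτi v nv) hw1 (hτi w nw) hz2 hw2 (hτe a ha w0 v n0 nv hv1) (hτe a0 ha0 v w nv nw hv2)
      rw [← e3]
      exact hw2
  choose κ hκ using hC
  refine ⟨fun z => if E i y0 z then κ z else τ z, ?_, ?_, ?_⟩
  · have n0 : E i y0 y0 := h.refl i y0
    show (if E i y0 y0 then κ y0 else τ y0) = y0'
    rw [if_pos n0]
    obtain ⟨w, hw, e1⟩ := hnb a0 y0
    have nw := hoff y0 n0 a0 ha0 w hw e1
    have e2 := lyc_dir h ha0 e1 hw.symm (hτ w nw)
    have e3 := (hκ y0 n0).2 a0 ha0 w hw e1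
    exact tr_un h ha0 (hκ y0 n0).1 h0 (sy e3) (sy e2)
  · intro y
    show E i y (if E i y0 y then κ y else τ y)
    by_cases hy : E i y0 y
    · rw [if_pos hy]
      exact (hκ y hy).1
    · rw [if_neg hy]
      exact hτi y hy
  · intro a ha y z e1
    show E a (if E i y0 y then κ y else τ y) (if E i y0 z then κ z else τ z)
    by_cases hy : E i y0 y
    · by_cases hz : E i y0 z
      · have e2 : y = z := h.one a i y z ha e1 (tr (sy hy) hz)
        subst e2
        exact h.refl _ _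
      · rw [if_pos hy, if_neg hz]
        refine (hκ y hy).2 a ha z ?_ e1
        rintro rfl
        exact hz hy
    · by_cases hz : E i y0 z
      · rw [if_neg hy, if_pos hz]
        refine sy ((hκ z hz).2 a ha y ?_ (sy e1))
        rintro rfl
        exact hy hz
      · rw [if_neg hy, if_neg hz]
        exact hτe a ha y z hy hz e1

end Pool.H67.CR
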