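import Pool.Agent.H67.CR.Circ
import Pool.Agent.H67.CR.Syb
import Pool.Agent.H67.CR.Fin
import Pool.Agent.H67.CR.Gqf

/-!
# Coregular points: the theorem for squarefree q
-/

set_option autoImplicit false

namespace Pool.H67.CR

open Finset Classical
open Pool.H63.GQ

theorem co_false {Ω J : Type*} [Fintype Ω] [Fintype J] {E T : J → Ω → Ω → Prop} {q : ℕ}
    (h : Co E T q) (hq : 2 ≤ q) (hsf : Squarefree q) (hnp : ¬ q.Prime) : False := by
  have hc := circ h hq hsf
  have hp : 2 ≤ q.minFac := (Nat.minFac_prime (by omega)).two_le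
  have h6 : q.minFac * (q.minFac + 1) ≤ q := ari_min q hq hsf hnp
  have h4 : 4 ≤ q := by nlinarith
  exact fin_main h hq hsf hnp hc (fun i y0 y0' h0 => syb h h4 hc h0)

theorem gq_main {P L : Type*} [Fintype P] [Fintype L] {I : P → L → Prop} {q : ℕ} (h : Q I q) (hq : 2 ≤ q)
    (hsf : Squarefree q) (hnp : ¬ q.Prime) (x : P) : ¬ ∀ l, I x l → RegLine I q l :=
  fun hreg => co_false (gq_co h x hreg) hq hsf hnp

end Pool.H67.CR
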