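import Pool.Agent.H67.CR.Lfou

/-!
# Row Siz (MP_718a21_CR): sizes of invariant sets (120 lines)

`siz`: `A` a set of `q + 1` directions, `n ∉ A`, `Z` closed under `A`: every `n`-line meets `Z` in `Z.card / q^3` points.
Proof: `f y = (if y ∈ Z then 1 else 0) - Z.card / q^4` has sum zero (`h.pts`) and is invariant under `A` (`Clo.inv`). `g = Av n f` has
sum zero (`av_sum` with `univ`), is invariant under `A` (`av_inv`) and `n` (`av_line`), so under `insert n A`, of size
`q + 2`. `l4_zero`: `g = 0`. `g y = (#(line ∩ Z) - q * Z.card / q^4) / q`.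
`orth`: `A ≠ B` of size `q + 1`: choose `n ∈ B`, `n ∉ A` (`Finset.exists_of_ssubset` or `Finset.not_subset`/`eq_of_subset_of_card_le`).
With `f` as above for `Z` and `g y = if y ∈ W then 1 else 0` (invariant under `n ∈ B`): `∑ f g = ∑ Av n f * g = 0` (`av_mul`,
`Av n f = 0` by the proof of `siz` - state it as `siz_zero`). And `∑ f g = #(Z ∩ W) - Z.card * W.card / q^4`.
`cl_card`: `A` in the family, `y`: `Z = Cl E A y` is closed; `A.card = q + 1 < q^2 + 1 = card J`, so there is `n ∉ A`;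
`k = #(Z ∩ n-line through y)`: `k ≥ 1` as `y` is in it, `k ≤ q` (`h.cls`) and `Z.card = q^3 k` (`siz`). If `k = q`, then `Z` has
`q^4` elements, `Z = univ` and an `A`-invariant function is constant (`Inv.rel`), with sum zero it is zero
(`q^4 ≠ 0`), contradiction to `Fam`.
-/

set_option autoImplicit false

namespace Pool.H67.CR

open Finset Classical

variable {Ω J : Type*} [Fintype Ω] [Fintype J] {E T : J → Ω → Ω → Prop} {q : ℕ}

theorem Siz_sum (h : Co E T q) (hq : 2 ≤ q) (Z : Finset Ω) :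
    ∑ y : Ω, (((if y ∈ Z then 1 else 0) : ℚ) - (Z.card : ℚ) / q ^ 4) = 0 := by
  have hq0 : (q : ℚ) ≠ 0 := h.qpos hq
  rw [Finset.sum_sub_distrib, Finset.sum_const, Finset.card_univ, h.pts, nsmul_eq_mul,
    Finset.sum_ite_mem, Finset.univ_inter, Finset.sum_const, nsmul_eq_mul, mul_one]
  push_cast
  field_simp
  ring

theorem siz_zero (h : Co E T q) (hq : 2 ≤ q) (A : Finset J) (hA : A.card = q + 1) (n : J) (hn : n ∉ A)
    (Z : Finset Ω) (hZ : Clo E A Z) :
    Av E q n (fun y => (if y ∈ Z then 1 else 0) - (Z.card : ℚ) / q ^ 4) = 0 := by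
  set f : Ω → ℚ := fun y => (if y ∈ Z then 1 else 0) - (Z.card : ℚ) / q ^ 4 with hf
  have hinv : Inv E A f := hZ.inv h _
  refine l4_zero h hq (insert n A) ?_ _ ?_ ?_
  · rw [Finset.card_insert_of_notMem hn, hA]
  · rw [av_sum h hq n f univ (fun _ _ _ z _ _ => Finset.mem_univ z)]
    exact Siz_sum h hq Z
  · intro a ha y z hyz
    rw [mem_insert] at ha
    rcases ha with rfl | ha
    · exact av_line h _ _ hyz
    · exact av_inv h hq hinv n a ha y z hyz

theorem siz (h : Co E T q) (hq : 2 ≤ q) (A : Finset J) (hA : A.card = q + 1) (n : J) (hn : n ∉ A)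
    (Z : Finset Ω) (hZ : Clo E A Z) (y : Ω) : q ^ 3 * (Z.filter (fun z => E n y z)).card = Z.card := by
  have hq0 : (q : ℚ) ≠ 0 := h.qpos hq
  have h0 := congrFun (siz_zero h hq A hA n hn Z hZ) y
  unfold Av at h0
  rw [Pi.zero_apply, div_eq_zero_iff, or_iff_left hq0, Finset.sum_sub_distrib, Finset.sum_const,
    h.cls n y, nsmul_eq_mul, Finset.sum_ite, Finset.sum_const_zero, add_zero, Finset.sum_const,
    nsmul_eq_mul, mul_one] at h0
  have h1 : ((univ.filter (fun z => E n y z)).filter (fun z => z ∈ Z)) =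
      Z.filter (fun z => E n y z) := by
    ext z
    simp only [mem_filter, mem_univ, true_and]
    exact and_comm
  rw [h1] at h0
  have h2 : ((q ^ 3 * (Z.filter (fun z => E n y z)).card : ℕ) : ℚ) = (Z.card : ℕ) := by
    push_cast
    have h3 : ((Z.filter (fun z => E n y z)).card : ℚ) = q * ((Z.card : ℚ) / q ^ 4) := by linarith
    rw [h3]
    field_simp
  exact_mod_cast h2

theorem orth (h : Co E T q) (hq : 2 ≤ q) (A B : Finset J) (hA : A.card = q + 1) (hB : B.card = q + 1)
    (hAB : A ≠ B) (Z W : Finset Ω) (hZ : Clo E A Z) (hW : Clo E B W) :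
    q ^ 4 * (Z ∩ W).card = Z.card * W.card := by
  have hq0 : (q : ℚ) ≠ 0 := h.qpos hq
  have hnot : ¬ B ⊆ A := by
    intro hs
    exact hAB (Finset.eq_of_subset_of_card_le hs (by omega)).symm
  obtain ⟨n, hnB, hnA⟩ := Finset.not_subset.1 hnot
  have h0 := av_mul h hq n (fun y => (if y ∈ Z then 1 else 0) - (Z.card : ℚ) / q ^ 4)
    (fun y => if y ∈ W then 1 else 0) (by
      intro y z hyz
      have := hW.iff h hnB hyz
      simp only [this])
  rw [siz_zero h hq A hA n hnA Z hZ] at h0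
  simp only [Pi.zero_apply, zero_mul, Finset.sum_const_zero] at h0
  have h1 : ∀ y : Ω, (((if y ∈ Z then 1 else 0) : ℚ) - (Z.card : ℚ) / q ^ 4) *
      (if y ∈ W then 1 else 0) = (if y ∈ Z ∩ W then 1 else 0) -
        (Z.card : ℚ) / q ^ 4 * (if y ∈ W then 1 else 0) := by
    intro y
    by_cases hy : y ∈ W <;> by_cases hy' : y ∈ Z <;> simp [hy, hy']
  rw [Finset.sum_congr rfl (fun y _ => h1 y), Finset.sum_sub_distrib, ← Finset.mul_sum,
    Finset.sum_ite_mem, Finset.sum_ite_mem, Finset.univ_inter, Finset.univ_inter, Finset.sum_const,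
    Finset.sum_const, nsmul_eq_mul, nsmul_eq_mul, mul_one, mul_one] at h0
  have h2 : ((q ^ 4 * (Z ∩ W).card : ℕ) : ℚ) = ((Z.card * W.card : ℕ) : ℚ) := by
    push_cast
    have h3 : ((Z ∩ W).card : ℚ) = (Z.card : ℚ) / q ^ 4 * W.card := by linarith
    rw [h3]
    field_simp
  exact_mod_cast h2

theorem cl_card (h : Co E T q) (hq : 2 ≤ q) (A : Finset J) (hA : Fam E q A) (y : Ω) :
    ∃ k, 1 ≤ k ∧ k < q ∧ (Cl E A y).card = k * q ^ 3 := by
  obtain ⟨hAc, f, hf0, hfs, hfi⟩ := hA
  obtain ⟨n, hn⟩ : ∃ n, n ∉ A := by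
    by_contra hcon
    push Not at hcon
    have h1 : (univ : Finset J) ⊆ A := fun n _ => hcon n
    have h2 := Finset.card_le_card h1
    rw [Finset.card_univ, h.dirs, hAc] at h2
    nlinarith
  have hs := siz h hq A hAc n hn (Cl E A y) (Cl_clo A y) y
  set k := ((Cl E A y).filter (fun z => E n y z)).card with hk
  have hk1 : 1 ≤ k := by
    rw [hk, Nat.one_le_iff_ne_zero, ← Nat.pos_iff_ne_zero, Finset.card_pos]
    exact ⟨y, Finset.mem_filter.2 ⟨Cl_self A y, h.refl _ _⟩⟩
  have hkq : k ≤ q := by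
    rw [← h.cls n y]
    exact Finset.card_le_card (Finset.filter_subset_filter _ (Finset.subset_univ _))
  refine ⟨k, hk1, ?_, by rw [← hs]; ring⟩
  rcases Nat.lt_or_ge k q with hlt | hge
  · exact hlt
  · exfalso
    have hkq' : k = q := le_antisymm hkq hge
    rw [hkq'] at hs
    have hcard : (Cl E A y).card = Fintype.card Ω := by rw [h.pts, ← hs]; ring
    have huniv : Cl E A y = univ := (Finset.card_eq_iff_eq_univ _).1 hcard
    have hconst : ∀ z, f z = f y := by
      intro z
      have hz : z ∈ Cl E A y := by rw [huniv]; exact Finset.mem_univ z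
      exact (hfi.rel (mem_Cl.1 hz)).symm
    rw [Finset.sum_congr rfl (fun z _ => hconst z), Finset.sum_const, Finset.card_univ, h.pts,
      nsmul_eq_mul] at hfs
    have hq0 : (q : ℚ) ≠ 0 := h.qpos hq
    have hfy : f y = 0 := by
      push_cast at hfs
      rcases mul_eq_zero.1 hfs with h3 | h3
      · exact absurd h3 (pow_ne_zero 4 hq0)
      · exact h3
    apply hf0
    funext z
    rw [hconst z, hfy, Pi.zero_apply]

end Pool.H67.CR
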