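import Pool.Agent.H67.CR.Defs

/-!
# Row Tri (MP_718a21_CR): three directions (140 lines)

`tri_path`: the relation `S y z := ∃ u v, E i y u ∧ E j u v ∧ E k v z` is reflexive, and by `h.comm` one may permute the
order of the directions in a path: so `S` is symmetric and transitive (collect the six steps as
`i i j j k k` with `h.comm`, then use `h.trans`). Hence `Relation.EqvGen` is contained in it (induction; the single
steps are in `S` with `h.refl`).
`tri_card`: the class of `y` is the image of the set of the `(u, v, z)` with `E i y u`, `E j u v`, `E k v z`, which has `q^3`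
elements (`h.cls` three times: a `Finset.sigma`/`biUnion` or counting triple sums), and the map to `z` is injective: let
`(u, v)` and `(u', v')` lead to the same `z`. Then `E k v v'`. From `E k v v'` and `E j v' u'`, `h.comm` gives `t` with
`E j v t`, `E k t u'`. So `E j u t` (`h.trans`), `E k t u'`, `E i u' u`: `h.notri` gives `u = t`, then `E k u u'` and `E i u u'`,
so `u = u'` (`h.one`); then `E j v v'` and `E k v v'` give `v = v'`.
`tri_dvd`: `Z` closed under `i, j, k` is a disjoint union of classes `Cl E {i,j,k} y` of size `q^3`: e.g. strong induction on the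
size of `Z`, or `Finset.card_eq_sum_card_fiberwise`-like: `Z = biUnion` of the image of `Z` under `Cl E {i,j,k}` (a finset of
pairwise disjoint finsets: `Finset.card_biUnion`, `Cl_disj`, `Cl_eq`), all of size `q^3`.
-/

set_option autoImplicit false

namespace Pool.H67.CR

open Finset Classical

variable {Ω J : Type*} [Fintype Ω] [Fintype J] {E T : J → Ω → Ω → Prop} {q : ℕ}

omit [Fintype Ω] [Fintype J] in
theorem Tri_comm3 {E : J → Ω → Ω → Prop}
    (comm : ∀ a b y z w, E a y z → E b z w → ∃ v, E b y v ∧ E a v w) (i j k : J) {y u v z : Ω}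
    (h1 : E k y u) (h2 : E j u v) (h3 : E i v z) : ∃ s r, E i y s ∧ E j s r ∧ E k r z := by
  obtain ⟨p, hp1, hp2⟩ := comm k j y u v h1 h2
  obtain ⟨r, hr1, hr2⟩ := comm k i p v z hp2 h3
  obtain ⟨s, hs1, hs2⟩ := comm j i y p r hp1 hr1
  exact ⟨s, r, hs1, hs2, hr2⟩

theorem tri_path (h : Co E T q) (i j k : J) (y z : Ω) (hyz : Rel E {i, j, k} y z) :
    ∃ u v, E i y u ∧ E j u v ∧ E k v z := by
  induction hyz with
  | rel y z h' =>
    obtain ⟨a, ha, h'⟩ := h'
    simp only [mem_insert, mem_singleton] at ha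
    rcases ha with rfl | rfl | rfl
    · exact ⟨z, z, h', h.refl _ _, h.refl _ _⟩
    · exact ⟨y, z, h.refl _ _, h', h.refl _ _⟩
    · exact ⟨y, y, h.refl _ _, h.refl _ _, h'⟩
  | refl y => exact ⟨y, y, h.refl _ _, h.refl _ _, h.refl _ _⟩
  | symm y z _ ih =>
    obtain ⟨u, v, h1, h2, h3⟩ := ih
    exact Tri_comm3 h.comm i j k (h.symm _ _ _ h3) (h.symm _ _ _ h2) (h.symm _ _ _ h1)
  | trans y z w _ _ ih1 ih2 =>
    obtain ⟨u, v, h1, h2, h3⟩ := ih1
    obtain ⟨u', v', h1', h2', h3'⟩ := ih2
    obtain ⟨p, hp1, hp2⟩ := h.comm k i v z u' h3 h1'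
    obtain ⟨r, hr1, hr2⟩ := h.comm j i u v p h2 hp1
    obtain ⟨s, hs1, hs2⟩ := h.comm k j p u' v' hp2 h2'
    exact ⟨r, s, h.trans _ _ _ _ h1 hr1, h.trans _ _ _ _ hr2 hs1, h.trans _ _ _ _ hs2 h3'⟩

theorem tri_card (h : Co E T q) (i j k : J) (hij : i ≠ j) (hjk : j ≠ k) (hik : i ≠ k) (y : Ω) :
    (Cl E {i, j, k} y).card = q ^ 3 := by
  set S : Finset ((_ : Ω) × (_ : Ω) × Ω) := (univ.filter (fun u => E i y u)).sigma
    (fun u => (univ.filter (fun v => E j u v)).sigma (fun v => univ.filter (fun z => E k v z))) with hS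
  have hcard : S.card = q ^ 3 := by
    rw [hS, Finset.card_sigma]
    have h1 : ∀ u, ((univ.filter (fun v => E j u v)).sigma
        (fun v => univ.filter (fun z => E k v z))).card = q * q := by
      intro u
      rw [Finset.card_sigma, Finset.sum_congr rfl (fun v _ => h.cls k v), Finset.sum_const,
        h.cls j u, smul_eq_mul]
    rw [Finset.sum_congr rfl (fun u _ => h1 u), Finset.sum_const, h.cls i y, smul_eq_mul]
    ring
  have himg : Cl E {i, j, k} y = S.image (fun t => t.2.2) := by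
    ext z
    rw [mem_Cl, Finset.mem_image]
    constructor
    · intro hz
      obtain ⟨u, v, h1, h2, h3⟩ := tri_path h i j k y z hz
      refine ⟨⟨u, v, z⟩, ?_, rfl⟩
      simp [hS, h1, h2, h3]
    · rintro ⟨⟨u, v, z'⟩, ht, rfl⟩
      simp only [hS, mem_sigma, mem_filter, mem_univ, true_and] at ht
      obtain ⟨h1, h2, h3⟩ := ht
      exact ((Rel.of (by simp) h1).trans (Rel.of (by simp) h2)).trans (Rel.of (by simp) h3)
  rw [himg, Finset.card_image_of_injOn, hcard]
  rintro ⟨u, v, z⟩ ht ⟨u', v', z'⟩ ht' hzz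
  simp only [hS, coe_sigma, Set.mem_sigma_iff, coe_filter, mem_univ, true_and, Set.mem_ofPred_eq] at ht ht'
  simp only at hzz
  subst hzz
  obtain ⟨h1, h2, h3⟩ := ht
  obtain ⟨h1', h2', h3'⟩ := ht'
  have hk : E k v v' := h.trans _ _ _ _ h3 (h.symm _ _ _ h3')
  obtain ⟨t, ht1, ht2⟩ := h.comm k j v v' u' hk (h.symm _ _ _ h2')
  have hut : u = t := h.notri j k i u t u' hjk (Ne.symm hik) (Ne.symm hij)
    (h.trans _ _ _ _ h2 ht1) ht2 (h.trans _ _ _ _ (h.symm _ _ _ h1') h1)
  subst hut
  have huu : u = u' := h.one k i u u' (Ne.symm hik) ht2 (h.trans _ _ _ _ (h.symm _ _ _ h1) h1')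
  subst huu
  have hvv : v = v' := h.one j k v v' hjk (h.trans _ _ _ _ (h.symm _ _ _ h2) h2') hk
  subst hvv
  rfl

theorem Tri_mem (h : Co E T q) {D : Finset J} {Z : Finset Ω} (hZ : Clo E D Z) {y z : Ω}
    (hyz : Rel E D y z) : y ∈ Z ↔ z ∈ Z := by
  induction hyz with
  | rel y z h' => obtain ⟨a, ha, h'⟩ := h'; exact hZ.iff h ha h'
  | refl y => exact Iff.rfl
  | symm y z _ ih => exact ih.symm
  | trans y z w _ _ ih1 ih2 => exact ih1.trans ih2

theorem tri_dvd (h : Co E T q) (i j k : J) (hij : i ≠ j) (hjk : j ≠ k) (hik : i ≠ k) (Z : Finset Ω)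
    (hZ : Clo E {i, j, k} Z) : q ^ 3 ∣ Z.card := by
  induction hn : Z.card using Nat.strong_induction_on generalizing Z with
  | _ n ih =>
    rcases Z.eq_empty_or_nonempty with hE | ⟨y, hy⟩
    · subst hE
      simp at hn
      subst hn
      exact dvd_zero _
    · have hsub : Cl E {i, j, k} y ⊆ Z := by
        intro z hz
        rw [mem_Cl] at hz
        exact (Tri_mem h hZ hz).1 hy
      have hclo : Clo E {i, j, k} (Z \ Cl E {i, j, k} y) := by
        intro a ha u v huv hu
        rw [mem_sdiff] at hu ⊢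
        refine ⟨hZ a ha u v huv hu.1, fun hv => hu.2 ?_⟩
        exact Cl_clo {i, j, k} y a ha v u (h.symm _ _ _ huv) hv
      have hc := Finset.card_sdiff_add_card_eq_card hsub
      have hpos : 0 < (Cl E {i, j, k} y).card := Finset.card_pos.2 ⟨y, Cl_self _ y⟩
      have hd := ih (Z \ Cl E {i, j, k} y).card (by omega) _ hclo rfl
      rw [← hn, ← hc, tri_card h i j k hij hjk hik y]
      exact dvd_add hd (dvd_refl _)

end Pool.H67.CR
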