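import Pool.Agent.H67.CR.Siz
import Pool.Agent.H67.CR.Tri

/-!
# Row Span (MP_718a21_CR): the spanning identity (150 lines)

Let `i, j, k` be different, `K = {i, j, k}`, `S` the set of the `A` with `Fam E q A` and `K ⊆ A`, `y` a point. Write
`1_Z` for the indicator function. Put
`f = (1_{Cl K y} - 1/q) - ∑ A ∈ S, (q^3 / |Cl A y| * 1_{Cl A y} - 1/q)`.
(a) `∑ f = 0`: `|Cl K y| = q^3 = q^4 / q` (`tri_card`, `h.pts`), `q^3 / |Cl A y| * |Cl A y| = q^3`.
(b) `Inv E K f` (`Clo.inv` or directly from `Cl_clo`, `Clo.mono`, `Clo.iff`).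
(c) `f = 0`: otherwise `l4` (`K.card = 3`) gives `D ⊇ K`, `Fam E q D`, `g ≠ 0` with `Inv E D g`, `∑ Z g = ∑ Z f` for all
`Z` closed under `D`. For every point `z` let `Z = Cl E D z`. Claim `∑ Z f = 0`. Then, as `g` is constant on `Z`
(`Inv.rel`), `|Z| g z = 0`, so `g z = 0`, `g = 0`, contradiction. The claim: for `A ∈ S`, `A ≠ D`:
`∑ Z (q^3/|Cl A y| 1_{Cl A y} - 1/q) = q^3/|Cl A y| |Cl A y ∩ Z| - |Z|/q = 0` by `orth`
(`q^4 |Cl A y ∩ Z| = |Cl A y| |Z|`). For `A = D ∈ S` together with the first term: if `Rel E D y z` then `Z = Cl D y`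
(`Cl_eq`) contains `Cl K y` (`Rel.mono`) and the two terms are `(q^3 - |Z|/q) - (q^3 - |Z|/q) = 0`; otherwise `Z` is
disjoint from `Cl D y ⊇ Cl K y` and the terms are `(0 - |Z|/q) - (0 - |Z|/q) = 0`.
(Use `Finset.sum_eq_single D` for the sum over `A ∈ S`.)
(d) `f y = 0` reads `(1 - 1/q) - ∑ A ∈ S, (q^3/|Cl A y| - 1/q) = 0`; multiply by `q`.
-/

set_option autoImplicit false

namespace Pool.H67.CR

open Finset Classical

variable {Ω J : Type*} [Fintype Ω] [Fintype J] {E T : J → Ω → Ω → Prop} {q : ℕ}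

omit [Fintype Ω] in
theorem Span_sum (Z W : Finset Ω) (c d : ℚ) :
    ∑ z ∈ Z, (c * (if z ∈ W then 1 else 0) - d) = c * ((Z ∩ W).card : ℚ) - (Z.card : ℚ) * d := by
  rw [sum_sub_distrib, ← mul_sum, sum_ite_mem, sum_const, sum_const, nsmul_eq_mul, nsmul_eq_mul,
    mul_one]

theorem span_id (h : Co E T q) (hq : 2 ≤ q) (i j k : J) (hij : i ≠ j) (hjk : j ≠ k) (hik : i ≠ k) (y : Ω) :
    ∑ A ∈ (univ : Finset (Finset J)).filter (fun A => Fam E q A ∧ {i, j, k} ⊆ A),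
      ((q : ℚ) ^ 4 / ((Cl E A y).card : ℚ) - 1) = (q : ℚ) - 1 := by
  classical
  have hq0 : (q : ℚ) ≠ 0 := h.qpos hq
  set K : Finset J := {i, j, k} with hK
  have hKc : K.card = 3 := by
    rw [hK]
    exact Finset.card_eq_three.2 ⟨i, j, k, hij, hik, hjk, rfl⟩
  set S := (univ : Finset (Finset J)).filter (fun A => Fam E q A ∧ K ⊆ A) with hS
  have hmS : ∀ A, A ∈ S ↔ Fam E q A ∧ K ⊆ A := by
    intro A
    rw [hS, mem_filter]
    exact ⟨fun h => h.2, fun h => ⟨mem_univ _, h⟩⟩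
  have hcl : ∀ A, ((Cl E A y).card : ℚ) ≠ 0 := by
    intro A
    have : 0 < (Cl E A y).card := card_pos.2 ⟨y, Cl_self A y⟩
    positivity
  have hKq : (Cl E K y).card = q ^ 3 := tri_card h i j k hij hjk hik y
  let c : Finset J → ℚ := fun A => (q : ℚ) ^ 3 / ((Cl E A y).card : ℚ)
  let F : Finset J → Ω → ℚ := fun A z => c A * (if z ∈ Cl E A y then 1 else 0) - 1 / q
  let f : Ω → ℚ := fun z => (1 * (if z ∈ Cl E K y then 1 else 0) - 1 / q) - ∑ A ∈ S, F A z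
  have hF : ∀ A (Z : Finset Ω), ∑ z ∈ Z, F A z = c A * ((Z ∩ Cl E A y).card : ℚ) - (Z.card : ℚ) * (1 / q) :=
    fun A Z => Span_sum Z _ _ _
  have hc : ∀ A, c A * ((Cl E A y).card : ℚ) = (q : ℚ) ^ 3 := fun A => div_mul_cancel₀ _ (hcl A)
  have hfZ : ∀ Z : Finset Ω, ∑ z ∈ Z, f z = (1 * ((Z ∩ Cl E K y).card : ℚ) - (Z.card : ℚ) * (1 / q)) -
      ∑ A ∈ S, (c A * ((Z ∩ Cl E A y).card : ℚ) - (Z.card : ℚ) * (1 / q)) := by
    intro Z
    change ∑ z ∈ Z, ((1 * (if z ∈ Cl E K y then 1 else 0) - 1 / (q : ℚ)) - ∑ A ∈ S, F A z) = _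
    rw [sum_sub_distrib, Span_sum, sum_comm]
    congr 1
    exact sum_congr rfl fun A _ => hF A Z
  have hpts : ((univ : Finset Ω).card : ℚ) = (q : ℚ) ^ 4 := by
    rw [card_univ, h.pts]
    push_cast
    rfl
  -- (a)
  have ha : ∑ z, f z = 0 := by
    rw [hfZ, univ_inter, hKq, hpts]
    have h1 : ∀ A ∈ S, c A * (((univ : Finset Ω) ∩ Cl E A y).card : ℚ) - (q : ℚ) ^ 4 * (1 / q) = 0 := by
      intro A _
      rw [univ_inter, hc]
      field_simp
      ring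
    rw [sum_eq_zero h1, sub_zero]
    push_cast
    field_simp
    ring
  -- (b)
  have hb : Inv E K f := by
    intro a ha' u v huv
    have h1 : ∀ A, K ⊆ A → (u ∈ Cl E A y ↔ v ∈ Cl E A y) := fun A hA =>
      (Cl_clo A y).iff h (hA ha') huv
    have h2 : ∀ A ∈ S, F A u = F A v := by
      intro A hA
      have h3 := h1 A ((hmS A).1 hA).2
      change c A * (if u ∈ Cl E A y then 1 else 0) - 1 / (q : ℚ) = c A * (if v ∈ Cl E A y then 1 else 0) - 1 / q
      simp only [h3]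
    change (1 * (if u ∈ Cl E K y then 1 else 0) - 1 / (q : ℚ)) - ∑ A ∈ S, F A u =
      (1 * (if v ∈ Cl E K y then 1 else 0) - 1 / (q : ℚ)) - ∑ A ∈ S, F A v
    rw [sum_congr rfl h2]
    have h3 := h1 K (subset_refl K)
    simp only [h3]
  -- (c)
  have hf0 : f = 0 := by
    by_contra hne
    obtain ⟨D, hKD, hD, g, hg, -, hgD, hgZ⟩ := l4 h hq K (by omega) f hne ha hb
    have hDS : D ∈ S := (hmS D).2 ⟨hD, hKD⟩
    apply hg
    funext z
    have hZ : ∑ w ∈ Cl E D z, f w = 0 := by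
      have hD1 : ∀ A ∈ S, A ≠ D →
          c A * (((Cl E D z) ∩ Cl E A y).card : ℚ) - ((Cl E D z).card : ℚ) * (1 / q) = 0 := by
        intro A hA hAD
        have h1 := orth h hq D A hD.1 ((hmS A).1 hA).1.1 (Ne.symm hAD) (Cl E D z) (Cl E A y)
          (Cl_clo D z) (Cl_clo A y)
        have h2 : (q : ℚ) ^ 4 * (((Cl E D z) ∩ Cl E A y).card : ℚ) =
            ((Cl E D z).card : ℚ) * ((Cl E A y).card : ℚ) := by exact_mod_cast h1
        have h3 := hcl A
        change (q : ℚ) ^ 3 / ((Cl E A y).card : ℚ) * (((Cl E D z) ∩ Cl E A y).card : ℚ) - _ = 0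
        field_simp
        linear_combination h2
      rw [hfZ, sum_eq_single_of_mem D hDS hD1]
      by_cases hr : Rel E D y z
      · have h1 : Cl E D z = Cl E D y := (Cl_eq hr).symm
        have h2 : Cl E K y ⊆ Cl E D y := fun w hw => mem_Cl.2 (Rel.mono hKD (mem_Cl.1 hw))
        rw [h1, inter_self, hc, inter_eq_right.2 h2, hKq]
        push_cast
        ring
      · have h1 : Disjoint (Cl E D z) (Cl E D y) := (Cl_disj hr).symm
        have h2 : Cl E K y ⊆ Cl E D y := fun w hw => mem_Cl.2 (Rel.mono hKD (mem_Cl.1 hw))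
        have h3 : Disjoint (Cl E D z) (Cl E K y) := h1.mono_right h2
        rw [disjoint_iff_inter_eq_empty.1 h1, disjoint_iff_inter_eq_empty.1 h3, card_empty]
        push_cast
        ring
    rw [← hgZ _ (Cl_clo D z)] at hZ
    have h1 : ∑ w ∈ Cl E D z, g w = ∑ w ∈ Cl E D z, g z :=
      sum_congr rfl fun w hw => (hgD.rel (mem_Cl.1 hw)).symm
    rw [h1, sum_const, nsmul_eq_mul] at hZ
    have h2 : ((Cl E D z).card : ℚ) ≠ 0 := by
      have : 0 < (Cl E D z).card := card_pos.2 ⟨z, Cl_self D z⟩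
      positivity
    exact (mul_eq_zero.1 hZ).resolve_left h2
  -- (d)
  have hfy : f y = 0 := by rw [hf0]; rfl
  change (1 * (if y ∈ Cl E K y then 1 else 0) - 1 / (q : ℚ)) - ∑ A ∈ S, F A y = 0 at hfy
  rw [if_pos (Cl_self K y)] at hfy
  have h5 : ∀ A ∈ S, (q : ℚ) ^ 4 / ((Cl E A y).card : ℚ) - 1 = q * F A y := by
    intro A _
    change (q : ℚ) ^ 4 / ((Cl E A y).card : ℚ) - 1 =
      q * ((q : ℚ) ^ 3 / ((Cl E A y).card : ℚ) * (if y ∈ Cl E A y then 1 else 0) - 1 / q)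
    rw [if_pos (Cl_self A y)]
    field_simp
  rw [sum_congr rfl h5, ← mul_sum]
  have h6 : ∑ A ∈ S, F A y = 1 - 1 / q := by linarith
  rw [h6]
  field_simp

end Pool.H67.CR
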