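import Pool.Agent.H67.CR.Lyn

/-!
# Row Sya (MP_718a21_CR): neighbouring transports are compatible (140 lines)

`sya`: `E i y y'`; `z`, `w` not on the `i`-line of `y`; `E e z w`, `e ≠ i`; `z'`, `w'` the two-step transports of `(y, y')`
to `z` and `w`. Then `E e z' w'`. (`q ≥ 4`.)
Proof. If `z = w` then `z' = w'` (`two_unique`), use `h.refl`. Let `z ≠ w`.
(1) There is a direction `a ≠ i` with not `T a y z`, not `T a y w`, no point of the `a`-line of `y` on the `i`-line of `z`, and no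
 point of the `a`-line of `y` on the `i`-line of `w`. Count: `y ≠ z`, `y ≠ w`, so by `few_T` the first two conditions exclude
 at most `q + 1` directions each. If for two different `a, a' ≠ i` there are `u, u'` with `E a y u`, `E i u z`, `E a' y u'`,
 `E i u' z`: then `E i u u'`, so `h.notri` for `u, u', y` (directions `i, a', a`) gives `u = u'`, and then `u = y` (`h.one`), so `E i y z`,
 contradiction. So at most one `a ≠ i` is excluded by each of the last two conditions. In total at most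
 `1 + 2 (q + 1) + 2 = 2 q + 5 < q^2 + 1` (`q ≥ 4`) directions are excluded.
(2) By `h.ex a y z`: `b1 ≠ a`, `w1` with `E a y w1`, `E b1 w1 z`; `b1 ≠ i` by the choice of `a`. Similarly `b2`, `w2` with `E a y w2`,
 `E b2 w2 w`, `b2 ≠ i`. Transports (`tr_ex`): `w1'` with `E i w1 w1'`, `E a y' w1'`; `w2'` with `E i w2 w2'`, `E a y' w2'`; then
 `z1` with `E i z z1`, `E b1 w1' z1`: `z1 = z'` by `two_unique`; `v1` with `E i w v1`, `E b2 w2' v1`: `v1 = w'` by `two_unique`.
(3) not `E i w1 w` (choice of `a`). Two transports of `(w1, w1')` to `w`: via `z` (directions `b1`, `e`): `w''` with `E e z' w''`,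
 `E i w w''`; via `w2` (directions `a`, `b2`): `E a w1 w2`, `E a w1' w2'` (both on the `a`-line of `y'`), `E b2 w2' w'`: result `w'`.
 By `two_unique`, `w'' = w'`, so `E e z' w'`.
-/

set_option autoImplicit false

namespace Pool.H67.CR

open Finset Classical

variable {Ω J : Type*} [Fintype Ω] [Fintype J] {E T : J → Ω → Ω → Prop} {q : ℕ}

theorem Sya_one (h : Co E T q) {i : J} {y z : Ω} (hz : ¬ E i y z) :
    (univ.filter (fun a => a ≠ i ∧ ∃ u, E a y u ∧ E i u z)).card ≤ 1 := by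
  rw [Finset.card_le_one]
  intro a ha a' ha'
  simp only [mem_filter, mem_univ, true_and] at ha ha'
  obtain ⟨hai, u, hu1, hu2⟩ := ha
  obtain ⟨hai', u', hu1', hu2'⟩ := ha'
  by_contra hne
  have e1 : E i u u' := h.trans _ _ _ _ hu2 (h.symm _ _ _ hu2')
  have e2 : u = u' := h.notri i a' a u u' y (Ne.symm hai') (Ne.symm hne) (Ne.symm hai) e1
    (h.symm _ _ _ hu1') hu1
  subst e2
  have e3 : y = u := h.one a a' y u hne hu1 hu1'
  subst e3
  exact hz hu2

theorem sya_dir (h : Co E T q) (hq : 4 ≤ q) {i : J} {y z w : Ω} (hz : ¬ E i y z) (hw : ¬ E i y w) :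
    ∃ a, a ≠ i ∧ ¬ T a y z ∧ ¬ T a y w ∧ (∀ u, E a y u → ¬ E i u z) ∧ (∀ u, E a y u → ¬ E i u w) := by
  by_contra hcon
  push Not at hcon
  have hyz : y ≠ z := by
    rintro rfl
    exact hz (h.refl _ _)
  have hyw : y ≠ w := by
    rintro rfl
    exact hw (h.refl _ _)
  have hsub : (univ : Finset J) ⊆ {i} ∪ (univ.filter (fun a => T a y z) ∪
      (univ.filter (fun a => T a y w) ∪
        (univ.filter (fun a => a ≠ i ∧ ∃ u, E a y u ∧ E i u z) ∪
          univ.filter (fun a => a ≠ i ∧ ∃ u, E a y u ∧ E i u w)))) := by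
    intro a _
    simp only [mem_union, mem_singleton, mem_filter, mem_univ, true_and]
    by_cases h1 : a = i
    · exact Or.inl h1
    by_cases h2 : T a y z
    · exact Or.inr (Or.inl h2)
    by_cases h3 : T a y w
    · exact Or.inr (Or.inr (Or.inl h3))
    by_cases h4 : ∃ u, E a y u ∧ E i u z
    · exact Or.inr (Or.inr (Or.inr (Or.inl ⟨h1, h4⟩)))
    · obtain ⟨u, hu1, hu2⟩ := hcon a h1 h2 h3 (fun u hu hu' => h4 ⟨u, hu, hu'⟩)
      exact Or.inr (Or.inr (Or.inr (Or.inr ⟨h1, u, hu1, hu2⟩)))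
  have c0 := Finset.card_le_card hsub
  rw [Finset.card_univ, h.dirs] at c0
  have c1 := Finset.card_union_le ({i} : Finset J) (univ.filter (fun a => T a y z) ∪
      (univ.filter (fun a => T a y w) ∪
        (univ.filter (fun a => a ≠ i ∧ ∃ u, E a y u ∧ E i u z) ∪
          univ.filter (fun a => a ≠ i ∧ ∃ u, E a y u ∧ E i u w))))
  have c2 := Finset.card_union_le (univ.filter (fun a => T a y z))
      (univ.filter (fun a => T a y w) ∪
        (univ.filter (fun a => a ≠ i ∧ ∃ u, E a y u ∧ E i u z) ∪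
          univ.filter (fun a => a ≠ i ∧ ∃ u, E a y u ∧ E i u w)))
  have c3 := Finset.card_union_le (univ.filter (fun a => T a y w))
        (univ.filter (fun a => a ≠ i ∧ ∃ u, E a y u ∧ E i u z) ∪
          univ.filter (fun a => a ≠ i ∧ ∃ u, E a y u ∧ E i u w))
  have c4 := Finset.card_union_le (univ.filter (fun a => a ≠ i ∧ ∃ u, E a y u ∧ E i u z))
          (univ.filter (fun a => a ≠ i ∧ ∃ u, E a y u ∧ E i u w))
  have d1 := few_T h hyz
  have d2 := few_T h hyw
  have d3 := Sya_one h hz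
  have d4 := Sya_one h hw
  rw [Finset.card_singleton] at c1
  have : q ^ 2 + 1 ≤ 2 * q + 5 := by omega
  nlinarith

theorem sya (h : Co E T q) (hq : 4 ≤ q) {F : Finset J → Prop} (hc : Cir E q F) {i e : J} (hei : e ≠ i)
    {y y' z z' w w' : Ω} (hz : ¬ E i y z) (hw : ¬ E i y w) (hzw : E e z w)
    (h1 : Two E i y y' z z') (h2 : Two E i y y' w w') : E e z' w' := by
  have hq3 : 3 ≤ q := by omega
  by_cases hzw' : z = w
  · subst hzw'
    rw [two_unique h hq3 hc hz h1 h2]
    exact h.refl _ _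
  have hyy : E i y y' := by
    obtain ⟨_, _, _, _, _, _, k, _⟩ := h1
    exact k
  have hzz : E i z z' := by
    obtain ⟨_, _, _, _, _, _, _, _, k, _⟩ := h1
    exact k
  have hww : E i w w' := by
    obtain ⟨_, _, _, _, _, _, _, _, k, _⟩ := h2
    exact k
  obtain ⟨a, hai, hTz, hTw, huz, huw⟩ := sya_dir h hq hz hw
  obtain ⟨b1, w1, hb1a, p1, p2⟩ := h.ex a y z hTz
  obtain ⟨b2, w2, hb2a, q1, q2⟩ := h.ex a y w hTw
  have hb1i : b1 ≠ i := by
    rintro rfl
    exact huz w1 p1 p2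
  have hb2i : b2 ≠ i := by
    rintro rfl
    exact huw w2 q1 q2
  obtain ⟨w1', s1, s2⟩ := tr_ex h hyy p1
  obtain ⟨w2', t1, t2⟩ := tr_ex h hyy q1
  obtain ⟨z1, s3, s4⟩ := tr_ex h s1 p2
  obtain ⟨v1, t3, t4⟩ := tr_ex h t1 q2
  have ez : z1 = z' := two_unique h hq3 hc hz
    ⟨a, b1, w1, w1', hai, hb1i, hyy, s1, s3, p1, p2, s2, s4⟩ h1
  have ew : v1 = w' := two_unique h hq3 hc hw
    ⟨a, b2, w2, w2', hai, hb2i, hyy, t1, t3, q1, q2, t2, t4⟩ h2
  subst ez
  subst ew
  obtain ⟨w'', r1, r2⟩ := tr_ex h hzz hzw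
  have k1 : Two E i w1 w1' w w'' :=
    ⟨b1, e, z, z1, hb1i, hei, s1, hzz, r1, p2, hzw, s4, r2⟩
  have k2 : Two E i w1 w1' w v1 :=
    ⟨a, b2, w2, w2', hai, hb2i, s1, t1, hww, h.trans _ _ _ _ (h.symm _ _ _ p1) q1, q2,
      h.trans _ _ _ _ (h.symm _ _ _ s2) t2, t4⟩
  have e1 : w'' = v1 := two_unique h hq3 hc (huw w1 p1) k1 k2
  subst e1
  exact r2

end Pool.H67.CR
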