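import Pool.Agent.H67.CR.Cirdef

/-!
# Row Tra (MP_718a21_CR): transport of segments, the cube lemma, two paths (160 lines)

* `tr_ex`: `h.comm i a` applied to `y' ≡_i y ≡_a z`.
* `tr_un`: `z'` and `z''` are on an `i`-line and on an `a`-line.
* `tr_cube`: `y' ≡_a w' ≡_b z'`, so there is `v` with `E b y' v`, `E a v z'` (`h.comm`). `v ≡_b u'` (both `≡_b y'`), `u' ≡_a z''`.
  From `z' ≡_a v ≡_b u'` (`h.comm a b`): `t` with `E b z' t`, `E a t u'`. Then `E a t z''`, and `z'' ≡_i z ≡_i z'`. `h.notri` for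
  `z', t, z''` (directions `b, a, i`): `z' = t`. So `E a z' z''` and `E i z' z''`: equal (`h.one`).
* `few_T`: if `y`, `z` are on no common line: `h.tri`. If `E c y z`: `T a y z` only for `a = c` (`h.oneT`): at most one.
* `two_paths`: `y`, `z` on no common line, `y ≡_a w ≡_b z`, `y ≡_{a2} w2 ≡_{b2} z`. Note `a ≠ b` (else `E a y z`), `a2 ≠ b2`,
  `w, w2` are different from `y, z` (else `y`, `z` on a line).
  - `a = a2`: `E a w w2`. If `w ≠ w2`: `b = b2` would give `E b w w2` too, so `w = w2` by `h.one`; `b ≠ b2`: `h.notri` for `w, z, w2`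
   with directions `b, b2, a` (`a = a2 ≠ b2`) gives `w = z`, contradiction. So `w = w2`, then `E b w z`, `E b2 w z`, `w ≠ z`: `b = b2`.
  - `b = b2`: the same by reversing the paths.
  - `a = b2`: `h.comm a b`: `v` with `E b y v`, `E a v z`; `E a v w2`. If `v = w2`: `E b y w2`, `E a2 y w2`, `y ≠ w2`: `a2 = b`: second
   case of the conclusion. If `v ≠ w2`: `a2 ≠ b` (else `E b v w2` and `E a v w2`), and `h.notri` for `v, w2, y`
   with directions `a, a2, b` gives `v = w2`, contradiction.
  - `b = a2`: the same by reversing the paths.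
  - otherwise all four are different; `w ≠ w2` since `w = w2` gives `E a y w`, `E a2 y w`, `y ≠ w`, so `a = a2`.
-/

set_option autoImplicit false

namespace Pool.H67.CR

open Finset Classical

variable {Ω J : Type*} [Fintype Ω] [Fintype J] {E T : J → Ω → Ω → Prop} {q : ℕ}

theorem tr_ex (h : Co E T q) {i a : J} {y y' z : Ω} (h1 : E i y y') (h2 : E a y z) :
    ∃ z', E i z z' ∧ E a y' z' := by
  obtain ⟨v, hv1, hv2⟩ := h.comm i a y' y z (h.symm _ _ _ h1) h2
  exact ⟨v, h.symm _ _ _ hv2, hv1⟩

theorem tr_un (h : Co E T q) {i a : J} (hai : a ≠ i) {y' z z' z'' : Ω} (h1 : E i z z') (h2 : E i z z'')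
    (h3 : E a y' z') (h4 : E a y' z'') : z' = z'' :=
  h.one a i z' z'' hai (h.trans _ _ _ _ (h.symm _ _ _ h3) h4)
    (h.trans _ _ _ _ (h.symm _ _ _ h1) h2)

theorem tr_cube (h : Co E T q) {i a b : J} (hai : a ≠ i) (hbi : b ≠ i) (hab : a ≠ b)
    {y w u z y' w' u' z' z'' : Ω} (h1 : E a y w) (h2 : E b w z) (h3 : E b y u) (h4 : E a u z)
    (s1 : E i y y') (s2 : E i w w') (s3 : E i u u') (s4 : E i z z') (s5 : E i z z'')
    (t1 : E a y' w') (t2 : E b w' z') (t3 : E b y' u') (t4 : E a u' z'') : z' = z'' := by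
  obtain ⟨v, hv1, hv2⟩ := h.comm a b y' w' z' t1 t2
  have e1 : E b v u' := h.trans _ _ _ _ (h.symm _ _ _ hv1) t3
  obtain ⟨t, ht1, ht2⟩ := h.comm a b z' v u' (h.symm _ _ _ hv2) e1
  have e2 : E a t z'' := h.trans _ _ _ _ ht2 t4
  have e3 : E i z'' z' := h.trans _ _ _ _ (h.symm _ _ _ s5) s4
  have e4 : z' = t := h.notri b a i z' t z'' hab.symm hai hbi ht1 e2 e3
  rw [← e4] at e2
  exact h.one a i z' z'' hai e2 (h.symm _ _ _ e3)

theorem few_T (h : Co E T q) {y z : Ω} (hyz : y ≠ z) : (univ.filter (fun a => T a y z)).card ≤ q + 1 := by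
  by_cases hc : ∀ a, ¬ E a y z
  · exact (h.tri y z hc).le
  · push Not at hc
    obtain ⟨c, hc⟩ := hc
    have h1 : (univ.filter (fun a => T a y z)) ⊆ {c} := by
      intro a ha
      rw [Finset.mem_singleton]
      by_contra hac
      exact hyz (h.oneT a c y z hac hc (Finset.mem_filter.1 ha).2)
    have h2 := Finset.card_le_card h1
    rw [Finset.card_singleton] at h2
    omega

theorem two_paths (h : Co E T q) {y z w w2 : Ω} {a b a2 b2 : J} (hn : ∀ c, ¬ E c y z) (h1 : E a y w)
    (h2 : E b w z) (h3 : E a2 y w2) (h4 : E b2 w2 z) :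
    (a = a2 ∧ b = b2 ∧ w = w2) ∨ (a2 = b ∧ b2 = a) ∨
      (a ≠ b ∧ a2 ≠ b2 ∧ a ≠ a2 ∧ a ≠ b2 ∧ b ≠ a2 ∧ b ≠ b2 ∧ w ≠ w2 ∧ w ≠ y ∧ w2 ≠ y) := by
  have sy := fun {c : J} {u v : Ω} (k : E c u v) => h.symm c u v k
  have tr := fun {c : J} {u v t : Ω} (k : E c u v) (k' : E c v t) => h.trans c u v t k k'
  have hab : a ≠ b := by
    rintro rfl
    exact hn a (tr h1 h2)
  have hab2 : a2 ≠ b2 := by
    rintro rfl
    exact hn a2 (tr h3 h4)
  have hwy : w ≠ y := by
    rintro rfl
    exact hn b h2
  have hw2y : w2 ≠ y := by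
    rintro rfl
    exact hn b2 h4
  have hwz : w ≠ z := by
    rintro rfl
    exact hn a h1
  have hw2z : w2 ≠ z := by
    rintro rfl
    exact hn a2 h3
  by_cases ha : a = a2
  · subst ha
    left
    have e1 : E a w w2 := tr (sy h1) h3
    have hw : w = w2 := by
      by_contra hne
      by_cases hb : b = b2
      · subst hb
        exact hne (h.one a b w w2 hab e1 (tr h2 (sy h4)))
      · exact hwz (h.notri b b2 a w z w2 hb hab2.symm hab.symm h2 (sy h4) (sy e1))
    subst hw
    refine ⟨rfl, ?_, rfl⟩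
    by_contra hb
    exact hwz (h.one b b2 w z hb h2 h4)
  · by_cases hb : b = b2
    · exfalso
      subst hb
      have e1 : E b w w2 := tr h2 (sy h4)
      have hw : w = w2 := by
        by_contra hne
        exact hwy (h.notri a a2 b w y w2 ha hab2 hab (sy h1) h3 (sy e1))
      subst hw
      exact hwy (h.one a a2 w y ha (sy h1) (sy h3))
    · by_cases hc : a = b2
      · subst hc
        right; left
        obtain ⟨v, hv1, hv2⟩ := h.comm a b y w z h1 h2
        have e1 : E a v w2 := tr hv2 (sy h4)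
        have hv : v = w2 := by
          by_contra hne
          have hba : a2 ≠ b := by
            rintro rfl
            exact hne (h.one a a2 v w2 ha e1 (tr (sy hv1) h3))
          exact hne (h.notri a a2 b v w2 y ha hba hab e1 (sy h3) hv1)
        subst hv
        refine ⟨?_, rfl⟩
        by_contra hba
        exact hw2y (h.one a2 b v y hba (sy h3) (sy hv1))
      · by_cases hd : b = a2
        · subst hd
          right; left
          obtain ⟨v, hv1, hv2⟩ := h.comm b a z w y (sy h2) (sy h1)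
          have e1 : E b v w2 := tr hv2 h3
          have hv : v = w2 := by
            by_contra hne
            exact hne (h.notri b b2 a v w2 z hb (fun k => hc k.symm) hab.symm e1 h4 hv1)
          subst hv
          refine ⟨rfl, ?_⟩
          by_contra hba
          exact hw2z (h.one b2 a v z hba h4 (sy hv1))
        · right; right
          refine ⟨hab, hab2, ha, hc, hd, hb, ?_, hwy, hw2y⟩
          rintro rfl
          exact hwy (h.one a a2 w y ha (sy h1) (sy h3))

end Pool.H67.CR
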